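import Pool.Graph.R_seed8.TH942.RZ.PSum

/-!
# The partial sums of the coefficients of a cusp form, twisted by additive characters and by
periodic functions
-/

set_option autoImplicit false

namespace Pool.Agent.H1.OB

open CongruenceSubgroup Pool.Agent.TH941 MeasureTheory
open scoped MatrixGroups
open Pool.Agent.W165.RS (ac)
open Pool.Agent.TH942.RZ.PSum Function.Periodic

/-- the additive character -/
noncomputable def ea (α : ℝ) (n : ℕ) : ℂ := Complex.exp (2 * Real.pi * Complex.I * (n * α))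

theorem q_shift (u α y : ℝ) : (1 / qParam 1 (((u + α : ℝ) : ℂ) + (y : ℂ) * Complex.I) : ℂ) =
    (1 / qParam 1 ((u : ℂ) + (y : ℂ) * Complex.I)) * Complex.exp (-(2 * Real.pi * Complex.I * α)) := by
  unfold qParam
  rw [one_div, one_div, ← Complex.exp_neg, ← Complex.exp_neg, ← Complex.exp_add]
  congr 1
  push_cast
  ring

section

variable {N : ℕ} [NeZero N] (f : CuspForm (Gamma0 N : Subgroup (GL (Fin 2) ℝ)) 2)

/-- the form on a horocycle -/
noncomputable def hor (y : ℝ) (hy : 0 < y) (u : ℝ) : ℂ :=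
  f ⟨(u : ℂ) + (y : ℂ) * Complex.I, by simpa using hy⟩

theorem hor_periodic {y : ℝ} (hy : 0 < y) : Function.Periodic (hor f y hy) 1 := by
  intro u
  unfold hor
  rw [← SlashInvariantForm.vAdd_apply_of_mem_strictPeriods f
    ⟨(u : ℂ) + (y : ℂ) * Complex.I, by simpa using hy⟩ Pool.Agent.W165.RS.one_mem0]
  congr 1
  ext
  simp [UpperHalfPlane.coe_vadd]
  ring

theorem ac_shift {y : ℝ} (hy : 0 < y) (α : ℝ) (n : ℕ) : ac f n * ea α n =
    ∫ u in (0 : ℝ)..1, (1 / qParam 1 ((u : ℂ) + (y : ℂ) * Complex.I)) ^ n * hor f y hy (u + α) := by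
  have h1 : ac f n = ∫ u in (0 : ℝ)..1,
      (1 / qParam 1 ((u : ℂ) + (y : ℂ) * Complex.I)) ^ n * hor f y hy u := by
    unfold ac
    rw [ModularFormClass.qExpansion_coeff_eq_intervalIntegral
      (Γ := (Gamma0 N : Subgroup (GL (Fin 2) ℝ))) (k := 2) f one_pos
      Pool.Agent.W165.RS.one_mem0 n hy]
    rw [Complex.ofReal_one, div_one, one_mul]
    refine intervalIntegral.integral_congr fun u _ => ?_
    simp only [one_div, inv_pow]
    rfl
  have hper : Function.Periodic (fun u : ℝ =>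
      (1 / qParam 1 ((u : ℂ) + (y : ℂ) * Complex.I)) ^ n * hor f y hy u) 1 := by
    intro u
    have h2 := q_shift u 1 y
    have h3 : Complex.exp (-(2 * Real.pi * Complex.I * ((1 : ℝ) : ℂ))) = 1 := by
      rw [Complex.ofReal_one, mul_one, Complex.exp_neg, Complex.exp_two_pi_mul_I, inv_one]
    rw [h3, mul_one] at h2
    simp only
    rw [h2, hor_periodic f hy u]
  have h4 := hper.intervalIntegral_add_eq 0 α
  rw [zero_add] at h4
  rw [h1, h4]
  have h5 := intervalIntegral.integral_comp_add_right (a := 0) (b := 1) (fun u : ℝ =>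
      (1 / qParam 1 ((u : ℂ) + (y : ℂ) * Complex.I)) ^ n * hor f y hy u) α
  rw [zero_add, add_comm 1 α] at h5
  rw [← h5, ← intervalIntegral.integral_mul_const]
  refine intervalIntegral.integral_congr fun u _ => ?_
  rw [q_shift, mul_pow, ← Complex.exp_nat_mul]
  unfold ea
  have h6 : Complex.exp ((n : ℂ) * -(2 * Real.pi * Complex.I * α)) *
      Complex.exp (2 * Real.pi * Complex.I * (n * α)) = 1 := by
    rw [← Complex.exp_add]
    have : (n : ℂ) * -(2 * Real.pi * Complex.I * α) + 2 * Real.pi * Complex.I * (n * α) = 0 := by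
      ring
    rw [this, Complex.exp_zero]
  calc _ = (1 / qParam 1 ((u : ℂ) + (y : ℂ) * Complex.I)) ^ n * hor f y hy (u + α) *
      (Complex.exp ((n : ℂ) * -(2 * Real.pi * Complex.I * α)) *
      Complex.exp (2 * Real.pi * Complex.I * (n * α))) := by ring
    _ = _ := by rw [h6, mul_one]

/-- the partial sums of the coefficients, twisted by additive characters, uniformly -/
theorem psum_add : ∃ C : ℝ, 0 ≤ C ∧ ∀ (α : ℝ) (M : ℕ),
    ‖∑ n ∈ Finset.range (M + 1), ac f n * ea α n‖ ≤
      C * ((M : ℝ) + 1) * (1 + Real.log ((M : ℝ) + 1)) := by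
  obtain ⟨C₀, hC₀⟩ := CuspFormClass.exists_bound (k := 2)
    (Γ := (Gamma0 N : Subgroup (GL (Fin 2) ℝ))) f
  set C : ℝ := |C₀| with hC
  have hb : ∀ τ : UpperHalfPlane, ‖f τ‖ ≤ C / τ.im := by
    intro τ
    have h := hC₀ τ
    have e : (((2 : ℤ) : ℝ) / 2 : ℝ) = 1 := by norm_num
    rw [e, Real.rpow_one] at h
    exact h.trans (div_le_div_of_nonneg_right (le_abs_self _) τ.im_pos.le)
  refine ⟨3 * Real.exp (2 * Real.pi) * C, by positivity, fun α M => ?_⟩
  set L : ℝ := (M : ℝ) + 1 with hL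
  have hL1 : 1 ≤ L := by rw [hL]; have : (0 : ℝ) ≤ M := Nat.cast_nonneg M; linarith
  have hL0 : 0 < L := by linarith
  have hyp : 0 < 1 / L := by positivity
  have hac : ∀ n : ℕ, ac f n * ea α n = ∫ u in (0 : ℝ)..1,
      (1 / qParam 1 ((u : ℂ) + ((1 / L : ℝ) : ℂ) * Complex.I)) ^ n * hor f (1 / L) hyp (u + α) :=
    fun n => ac_shift f hyp α n
  have hcont0 : Continuous (hor f (1 / L) hyp) := by
    unfold hor
    fun_prop
  have hcont : Continuous fun u : ℝ => hor f (1 / L) hyp (u + α) :=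
    hcont0.comp (continuous_id.add continuous_const)
  have hq : Continuous fun u : ℝ =>
      (1 / qParam 1 ((u : ℂ) + ((1 / L : ℝ) : ℂ) * Complex.I)) := by
    fun_prop (disch := simp [qParam_ne_zero])
  have hsum : ∑ n ∈ Finset.range (M + 1), ac f n * ea α n = ∫ u in (0 : ℝ)..1,
      (∑ n ∈ Finset.range (M + 1),
        (1 / qParam 1 ((u : ℂ) + ((1 / L : ℝ) : ℂ) * Complex.I)) ^ n) *
        hor f (1 / L) hyp (u + α) := by
    rw [Finset.sum_congr rfl fun n _ => hac n, ← intervalIntegral.integral_finsetSum]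
    · refine intervalIntegral.integral_congr fun u _ => ?_
      simp only [Finset.sum_mul]
    · intro n _
      exact ((hq.pow n).mul hcont).intervalIntegrable _ _
  rw [hsum]
  refine (intervalIntegral.norm_integral_le_integral_norm zero_le_one).trans ?_
  have hbound : ∀ u ∈ Set.Icc (0 : ℝ) 1, ‖(∑ n ∈ Finset.range (M + 1),
        (1 / qParam 1 ((u : ℂ) + ((1 / L : ℝ) : ℂ) * Complex.I)) ^ n) *
        hor f (1 / L) hyp (u + α)‖ ≤
      3 / 2 * Real.exp (2 * Real.pi) * (C * L) *
        (L / (1 + L * u) + L / (1 + L * (1 - u))) := by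
    intro u hu
    have h1 := kernel (M := M) hu.1 hu.2 hL
    have h2 : ‖hor f (1 / L) hyp (u + α)‖ ≤ C * L := by
      unfold hor
      refine (hb _).trans (le_of_eq ?_)
      have e2 : (⟨((u + α : ℝ) : ℂ) + ((1 / L : ℝ) : ℂ) * Complex.I, by simpa using hyp⟩ :
          UpperHalfPlane).im = 1 / L := by
        simp [UpperHalfPlane.im]
      rw [e2]
      field_simp
    rw [norm_mul]
    refine (mul_le_mul h1 h2 (norm_nonneg _) (le_trans (norm_nonneg _) h1)).trans (le_of_eq ?_)
    ring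
  have hint : IntervalIntegrable (fun u : ℝ => 3 / 2 * Real.exp (2 * Real.pi) * (C * L) *
        (L / (1 + L * u) + L / (1 + L * (1 - u)))) MeasureTheory.volume 0 1 :=
    ((int1 hL0).add (int2 hL0)).const_mul _
  refine (intervalIntegral.integral_mono_on zero_le_one ?_ hint hbound).trans ?_
  · apply Continuous.intervalIntegrable
    refine Continuous.norm ((continuous_finsetSum _ fun n _ => hq.pow n).mul hcont)
  · rw [intervalIntegral.integral_const_mul, intervalIntegral.integral_add (int1 hL0) (int2 hL0),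
      integral_log hL0, integral_log' hL0]
    have hlog : Real.log (1 + L) ≤ 1 + Real.log L := by
      have h1 : 1 + L ≤ Real.exp 1 * L := by
        have := Real.add_one_le_exp (1 : ℝ)
        nlinarith
      calc Real.log (1 + L) ≤ Real.log (Real.exp 1 * L) := Real.log_le_log (by positivity) h1
        _ = 1 + Real.log L := by
          rw [Real.log_mul (Real.exp_pos 1).ne' hL0.ne', Real.log_exp]
    have hc : 0 ≤ 3 * Real.exp (2 * Real.pi) * C * L := by positivity
    calc 3 / 2 * Real.exp (2 * Real.pi) * (C * L) * (Real.log (1 + L) + Real.log (1 + L)) =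
        3 * Real.exp (2 * Real.pi) * C * L * Real.log (1 + L) := by ring
      _ ≤ 3 * Real.exp (2 * Real.pi) * C * L * (1 + Real.log L) :=
        mul_le_mul_of_nonneg_left hlog hc

/-- every function on the residue classes is a combination of additive characters -/
theorem fourier {m : ℕ} [NeZero m] (g : ZMod m → ℂ) : ∃ γ : ZMod m → ℂ, ∀ n : ℕ,
    g n = ∑ j : ZMod m, γ j * ea ((j.val : ℝ) / m) n := by
  refine ⟨fun j => (m : ℂ)⁻¹ * ZMod.dft g j, fun n => ?_⟩
  have h1 : g n = ZMod.dft.symm (ZMod.dft g) (n : ZMod m) := by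
    rw [LinearEquiv.symm_apply_apply]
  rw [h1, ZMod.invDFT_apply, smul_eq_mul, Finset.mul_sum]
  refine Finset.sum_congr rfl fun j _ => ?_
  have h2 : ZMod.stdAddChar (j * (n : ZMod m)) = ea ((j.val : ℝ) / m) n := by
    have e : j * (n : ZMod m) = (((j.val * n : ℕ) : ℤ) : ZMod m) := by
      push_cast
      rw [ZMod.natCast_val, ZMod.cast_id]
    rw [e, ZMod.stdAddChar_coe]
    unfold ea
    congr 1
    push_cast
    ring
  rw [h2, smul_eq_mul]
  ring

/-- the partial sums of the coefficients times a periodic function -/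
theorem psum_per {m : ℕ} [NeZero m] (g : ZMod m → ℂ) : ∃ C : ℝ, 0 ≤ C ∧ ∀ M : ℕ,
    ‖∑ n ∈ Finset.range (M + 1), g n * ac f n‖ ≤
      C * ((M : ℝ) + 1) * (1 + Real.log ((M : ℝ) + 1)) := by
  obtain ⟨C, hC, h⟩ := psum_add f
  obtain ⟨γ, hγ⟩ := fourier g
  refine ⟨(∑ j : ZMod m, ‖γ j‖) * C, by positivity, fun M => ?_⟩
  have e : ∑ n ∈ Finset.range (M + 1), g n * ac f n =
      ∑ j : ZMod m, γ j * ∑ n ∈ Finset.range (M + 1), ac f n * ea ((j.val : ℝ) / m) n := by
    simp_rw [hγ, Finset.sum_mul, Finset.mul_sum]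
    rw [Finset.sum_comm]
    refine Finset.sum_congr rfl fun j _ => Finset.sum_congr rfl fun n _ => ?_
    ring
  rw [e]
  refine (norm_sum_le _ _).trans ?_
  rw [Finset.sum_mul, Finset.sum_mul, Finset.sum_mul]
  refine Finset.sum_le_sum fun j _ => ?_
  rw [norm_mul]
  refine (mul_le_mul_of_nonneg_left (h _ M) (norm_nonneg _)).trans (le_of_eq ?_)
  ring

end

end Pool.Agent.H1.OB
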