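import Pool.Agent.H1.OB.Grow
import Pool.Agent.H1.OB.Add
import Pool.Graph.R_seed8.TH941.Newform
import Pool.Graph.R_seed8.Y18.BSD.Pts

/-!
# The `L`-series of the quadratic twists: the theorem of Rankin and Selberg and the growth
-/

set_option autoImplicit false

namespace Pool.Agent.H1.OB

open CongruenceSubgroup Pool.Agent.TH941 Filter Topology
open scoped MatrixGroups
open Pool.Agent.W165.RS (ac ac_zero)
open Pool.Agent.W263.BSD (IsLSeries PhiF GoodPrime pointCount rsSum good_of_large)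

/-- the quadratic symbol `(d / n)` for odd `n`, and `0` for even `n` -/
def chi (d : ℤ) (n : ℕ) : ℤ := if n % 2 = 1 then jacobiSym d n else 0

theorem chi_zero (d : ℤ) : chi d 0 = 0 := rfl

theorem chi_one (d : ℤ) : chi d 1 = 1 := by
  unfold chi
  rw [if_pos rfl, jacobiSym.one_right]

theorem chi_mul (d : ℤ) (m n : ℕ) : chi d (m * n) = chi d m * chi d n := by
  unfold chi
  rcases Nat.mod_two_eq_zero_or_one m with hm | hm <;> rcases Nat.mod_two_eq_zero_or_one n with hn | hn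
  · rw [if_neg (by rw [Nat.mul_mod, hm]; simp), if_neg (by omega), zero_mul]
  · rw [if_neg (by rw [Nat.mul_mod, hm]; simp), if_neg (by omega), zero_mul]
  · rw [if_neg (by rw [Nat.mul_mod, hn]; simp), if_neg (by omega : ¬ n % 2 = 1), mul_zero]
  · rw [if_pos (by rw [Nat.mul_mod, hm, hn]), if_pos hm, if_pos hn]
    haveI : NeZero m := ⟨by omega⟩
    haveI : NeZero n := ⟨by omega⟩
    exact jacobiSym.mul_right d m n

theorem chi_per (d : ℤ) (n : ℕ) : chi d (n % (4 * d.natAbs)) = chi d n := by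
  unfold chi
  have h1 : n % (4 * d.natAbs) % 2 = n % 2 :=
    Nat.mod_mod_of_dvd n ⟨2 * d.natAbs, by ring⟩
  rw [h1]
  split_ifs with h
  · exact (jacobiSym.mod_right d (Nat.odd_iff.2 h)).symm
  · rfl

theorem chi_abs (d : ℤ) (n : ℕ) : ‖((chi d n : ℤ) : ℂ)‖ ≤ 1 := by
  unfold chi
  split_ifs
  · rcases jacobiSym.trichotomy d n with h | h | h <;> rw [h] <;> simp
  · simp

theorem chi_sq {d : ℤ} {p : ℕ} (hp : p.Prime) (h2 : p ≠ 2) (hd : ¬ (p : ℤ) ∣ d) :
    (chi d p) ^ 2 = 1 := by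
  haveI : Fact p.Prime := ⟨hp⟩
  have ho : p % 2 = 1 := (hp.eq_two_or_odd).resolve_left h2
  unfold chi
  rw [if_pos ho]
  have h3 : ((d : ℤ) : ZMod p) ≠ 0 := by
    rw [Ne, ZMod.intCast_zmod_eq_zero_iff_dvd]
    exact hd
  rw [← jacobiSym.legendreSym.to_jacobiSym]
  exact legendreSym.sq_one p h3

theorem chi_dvd {d : ℤ} {p : ℕ} (hp : p.Prime) (h : p = 2 ∨ (p : ℤ) ∣ d) : chi d p = 0 := by
  haveI : Fact p.Prime := ⟨hp⟩
  unfold chi
  split_ifs with ho
  · rcases h with h | h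
    · omega
    · rw [← jacobiSym.legendreSym.to_jacobiSym, legendreSym.eq_zero_iff,
        ZMod.intCast_zmod_eq_zero_iff_dvd]
      exact h
  · rfl

theorem chi_pow (d : ℤ) (p j : ℕ) : chi d (p ^ j) = chi d p ^ j := by
  induction j with
  | zero => rw [pow_zero, pow_zero, chi_one]
  | succ j ih => rw [pow_succ, chi_mul, ih, pow_succ]

section

variable {N : ℕ} [NeZero N] {f : CuspForm (Gamma0 N : Subgroup (GL (Fin 2) ℝ)) 2}

/-- the coefficients of the twist -/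
noncomputable def tc (f : CuspForm (Gamma0 N : Subgroup (GL (Fin 2) ℝ)) 2) (d : ℤ) (n : ℕ) : ℂ :=
  ((chi d n : ℤ) : ℂ) * ac f n

theorem tc_psum (f : CuspForm (Gamma0 N : Subgroup (GL (Fin 2) ℝ)) 2) {d : ℤ} (hd : d ≠ 0) :
    ∃ C : ℝ, 0 ≤ C ∧ ∀ M : ℕ, ‖∑ n ∈ Finset.range (M + 1), tc f d n‖ ≤
      C * ((M : ℝ) + 1) * (1 + Real.log ((M : ℝ) + 1)) := by
  haveI : NeZero (4 * d.natAbs) := ⟨by have := Int.natAbs_ne_zero.2 hd; omega⟩
  obtain ⟨C, hC, h⟩ := psum_per f (m := 4 * d.natAbs) fun x => ((chi d x.val : ℤ) : ℂ)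
  refine ⟨C, hC, fun M => ?_⟩
  have e : ∑ n ∈ Finset.range (M + 1), tc f d n = ∑ n ∈ Finset.range (M + 1),
      (fun x : ZMod (4 * d.natAbs) => ((chi d x.val : ℤ) : ℂ)) (n : ZMod (4 * d.natAbs)) * ac f n := by
    refine Finset.sum_congr rfl fun n _ => ?_
    simp only
    rw [ZMod.val_natCast, chi_per]
    rfl
  rw [e]
  exact h M

theorem tc_hseq (hf : Hecke f) (d : ℤ) : HSeq (2 * N * d.natAbs) (tc f d) where
  zero := by
    unfold tc
    rw [ac_zero, mul_zero]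
  one := by
    unfold tc
    rw [chi_one, hf.one]
    simp
  mul m n h := by
    unfold tc
    rw [chi_mul, hf.mul m n h]
    push_cast
    ring
  pow p j hp := by
    unfold tc
    rw [chi_pow, chi_pow, chi_pow, hf.pow p j hp]
    by_cases h : p = 2 ∨ (p : ℤ) ∣ d
    · have h1 : p ∣ 2 * N * d.natAbs := by
        rcases h with h | h
        · rw [h]
          exact Dvd.intro _ (by ring : 2 * (N * d.natAbs) = 2 * N * d.natAbs)
        · exact (Int.natCast_dvd.1 h).mul_left _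
      rw [if_pos h1, chi_dvd hp h]
      simp
    · push Not at h
      have h2 := chi_sq hp h.1 h.2
      have h3 : (((chi d p : ℤ) : ℂ)) ^ 2 = 1 := by exact_mod_cast h2
      have h4 : p ∣ 2 * N * d.natAbs ↔ p ∣ N := by
        constructor
        · intro h5
          rcases hp.dvd_mul.1 h5 with h6 | h6
          · rcases hp.dvd_mul.1 h6 with h7 | h7
            · exact absurd ((Nat.prime_dvd_prime_iff_eq hp Nat.prime_two).1 h7) h.1
            · exact h7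
          · exact absurd (Int.natCast_dvd.2 h6) h.2
        · intro h5
          exact (h5.mul_left 2).mul_right _
      push_cast
      by_cases h5 : p ∣ N
      · rw [if_pos h5, if_pos (h4.2 h5)]
        ring
      · rw [if_neg h5, if_neg (fun h6 => h5 (h4.1 h6))]
        linear_combination (-(((chi d p : ℤ) : ℂ)) ^ j * p * ac f (p ^ j)) * h3
  bad p hp h := by
    unfold tc
    rw [norm_mul]
    by_cases h1 : p = 2 ∨ (p : ℤ) ∣ d
    · rw [chi_dvd hp h1]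
      simp
    · push Not at h1
      have h5 : p ∣ N := by
        rcases hp.dvd_mul.1 h with h6 | h6
        · rcases hp.dvd_mul.1 h6 with h7 | h7
          · exact absurd ((Nat.prime_dvd_prime_iff_eq hp Nat.prime_two).1 h7) h1.1
          · exact h7
        · exact absurd (Int.natCast_dvd.2 h6) h1.2
      calc _ ≤ (1 : ℝ) * 1 := mul_le_mul (chi_abs d p) (hf.bad p hp h5) (norm_nonneg _) zero_le_one
        _ = 1 := one_mul 1

theorem good_twist {a b d : ℤ} {p : ℕ} (h : GoodPrime (a * d ^ 2) (b * d ^ 3) p) :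
    GoodPrime a b p ∧ p ≠ 2 ∧ ¬ (p : ℤ) ∣ d := by
  obtain ⟨h1, h2⟩ := h
  have e : 2 * (-4 * (a * d ^ 2) ^ 3 - 27 * (b * d ^ 3) ^ 2) =
      2 * (-4 * a ^ 3 - 27 * b ^ 2) * d ^ 6 := by ring
  rw [e] at h2
  refine ⟨⟨h1, fun h3 => h2 (h3.mul_right _)⟩, ?_, fun h3 => h2 ((dvd_pow h3 (by norm_num)).mul_left _)⟩
  rintro rfl
  apply h2
  exact ((Dvd.intro _ rfl : (2 : ℤ) ∣ 2 * (-4 * a ^ 3 - 27 * b ^ 2))).mul_right _

theorem count_twist {a b d : ℤ} {p : ℕ} (h : GoodPrime (a * d ^ 2) (b * d ^ 3) p) :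
    ((p : ℤ) - pointCount (a * d ^ 2) (b * d ^ 3) p : ℤ) = chi d p * ((p : ℤ) - pointCount a b p) := by
  obtain ⟨h1, h2, h3⟩ := good_twist h
  haveI : Fact p.Prime := ⟨h1.1⟩
  have ho : p % 2 = 1 := (h1.1.eq_two_or_odd).resolve_left h2
  have hd : ((d : ℤ) : ZMod p) ≠ 0 := by
    rw [Ne, ZMod.intCast_zmod_eq_zero_iff_dvd]
    exact h3
  have h4 := Pool.Agent.Y18.BSD.twist_count p h2 a b d hd
  unfold chi
  rw [if_pos ho, ← jacobiSym.legendreSym.to_jacobiSym]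
  exact h4

/-- **the growth of the `L`-series of a quadratic twist** -/
theorem growth_twist {a b : ℤ} (hΔ : 4 * a ^ 3 + 27 * b ^ 2 ≠ 0) (hf : Hecke f)
    (hb : Belongs a b f) {d : ℤ} (hd : d ≠ 0) {F : ℂ → ℂ}
    (hF : IsLSeries (a * d ^ 2) (b * d ^ 3) F) :
    ∃ C : ℝ, ∀ s : ℂ, 0 < s.re → ‖PhiF (a * d ^ 2) (b * d ^ 3) F s‖ ≤
      C * (1 + ‖s‖) * (1 + 1 / s.re) ^ 2 := by
  have hΔ' : 4 * (a * d ^ 2) ^ 3 + 27 * (b * d ^ 3) ^ 2 ≠ 0 := by
    have e : 4 * (a * d ^ 2) ^ 3 + 27 * (b * d ^ 3) ^ 2 = (4 * a ^ 3 + 27 * b ^ 2) * d ^ 6 := by ring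
    rw [e]
    exact mul_ne_zero hΔ (pow_ne_zero 6 hd)
  have hN : 2 * N * d.natAbs ≠ 0 :=
    mul_ne_zero (mul_ne_zero two_ne_zero (NeZero.ne N)) (Int.natAbs_ne_zero.2 hd)
  refine growth hΔ' hF hN (tc_hseq hf d) (fun p hp => ?_) (tc_psum f hd)
  have h1 := count_twist hp
  have h2 := hb p (good_twist hp).1
  unfold tc
  rw [h2]
  have h3 : (((p : ℤ) - pointCount (a * d ^ 2) (b * d ^ 3) p : ℤ) : ℂ) =
      ((chi d p * ((p : ℤ) - pointCount a b p) : ℤ) : ℂ) := by rw [h1]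
  push_cast at h3
  rw [h3]

end

/-- **Rankin and Selberg for a quadratic twist** -/
theorem rs_twist {a b d : ℤ} (hΔ : 4 * a ^ 3 + 27 * b ^ 2 ≠ 0) (hd : d ≠ 0)
    (h : Tendsto (rsSum a b) atTop (𝓝 0)) :
    Tendsto (rsSum (a * d ^ 2) (b * d ^ 3)) atTop (𝓝 0) := by
  classical
  have hΔ' : 4 * (a * d ^ 2) ^ 3 + 27 * (b * d ^ 3) ^ 2 ≠ 0 := by
    have e : 4 * (a * d ^ 2) ^ 3 + 27 * (b * d ^ 3) ^ 2 = (4 * a ^ 3 + 27 * b ^ 2) * d ^ 6 := by ring
    rw [e]
    exact mul_ne_zero hΔ (pow_ne_zero 6 hd)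
  obtain ⟨D, hD⟩ := good_of_large hΔ'
  refine h.congr' ?_
  filter_upwards [eventually_ge_atTop ((D : ℝ) ^ 2)] with x hxD
  have hDx : (D : ℝ) ≤ √x := Real.le_sqrt_of_sq_le hxD
  unfold rsSum
  refine Finset.sum_congr ?_ fun p hp => ?_
  · ext p
    rw [Finset.mem_filter, Finset.mem_filter]
    refine and_congr_right fun _ => ?_
    constructor
    · rintro ⟨h1, h2⟩
      refine ⟨hD p h1.1 ?_, h2⟩
      have : (D : ℝ) < p := lt_of_le_of_lt hDx h2
      exact_mod_cast this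
    · rintro ⟨h1, h2⟩
      exact ⟨(good_twist h1).1, h2⟩
  · rw [Finset.mem_filter] at hp
    have h1 : GoodPrime (a * d ^ 2) (b * d ^ 3) p := by
      refine hD p hp.2.1.1 ?_
      have : (D : ℝ) < p := lt_of_le_of_lt hDx hp.2.2
      exact_mod_cast this
    have h2 := count_twist h1
    obtain ⟨-, h3, h4⟩ := good_twist h1
    have h5 := chi_sq h1.1 h3 h4
    have h6 : ((p : ℤ) - pointCount (a * d ^ 2) (b * d ^ 3) p : ℤ) ^ 2 =
        ((p : ℤ) - pointCount a b p) ^ 2 := by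
      rw [h2, mul_pow, h5, one_mul]
    have h7 : ((p : ℝ) - pointCount (a * d ^ 2) (b * d ^ 3) p) ^ 2 =
        ((p : ℝ) - pointCount a b p) ^ 2 := by exact_mod_cast h6
    rw [h7]

end Pool.Agent.H1.OB
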