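import Pool.Agent.H3.L17.BSD
import Pool.Agent.H1.OB.Tws

/-!
# The curve of conductor `17`: Rankin-Selberg and the growth for all quadratic twists
-/

set_option autoImplicit false

namespace Pool.Agent.H1.OB

open CongruenceSubgroup Pool.Agent.TH941 Filter Topology
open scoped MatrixGroups
open Pool.Agent.W165.RS (ac ac_zero)
open Pool.Agent.W263.BSD (IsLSeries PhiF GoodPrime pointCount rsSum good_of_large)
open Pool.Agent.N809.M17 (f17 eigen17)
open Pool.Agent.N974.Gen (cf cf_one cf_mul cf_pow cf_prime)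

theorem hecke17 : Hecke f17 where
  one := cf_one eigen17
  real n := by
    obtain ⟨c, hc⟩ := Pool.Agent.N974.Gen.cf_int eigen17 n
    have h1 : ac f17 n = (c : ℂ) := hc
    rw [h1]
    simp
  mul m n h := cf_mul eigen17 m n h
  pow p j hp := cf_pow eigen17 p j hp
  good p hp h := by
    have h1 : ac f17 p = _ := cf_prime eigen17 p hp
    rw [h1, Complex.norm_intCast]
    exact eigen17.good p hp h
  bad p hp h := by
    have h1 : ac f17 p = _ := cf_prime eigen17 p hp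
    rw [h1, Complex.norm_intCast]
    exact eigen17.bad p hp h

theorem belongs17 : Belongs (-91) (-330) f17 := by
  intro p hp
  have h1 : ac f17 p = _ := cf_prime eigen17 p hp.1
  rw [h1]
  have h2 := Pool.Agent.N974.Gen.good17 hp.1 (fun h => hp.2 (by
    have e : 2 * (-4 * (-91 : ℤ) ^ 3 - 27 * (-330) ^ 2) =
        -(2 * (4 * (-91 : ℤ) ^ 3 + 27 * (-330) ^ 2)) := by ring
    rw [e]
    exact (dvd_neg).2 h))
  rw [← h2]
  push_cast
  rfl

theorem disc17 : 4 * (-91 : ℤ) ^ 3 + 27 * (-330) ^ 2 ≠ 0 := by norm_num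

theorem rs17 {d : ℤ} (hd : d ≠ 0) : Tendsto (rsSum (-91 * d ^ 2) (-330 * d ^ 3)) atTop (𝓝 0) :=
  rs_twist disc17 hd (hecke17.rsSum_tendsto disc17 belongs17)

theorem growth17 {d : ℤ} (hd : d ≠ 0) {F : ℂ → ℂ}
    (hF : IsLSeries (-91 * d ^ 2) (-330 * d ^ 3) F) :
    ∃ C : ℝ, ∀ s : ℂ, 0 < s.re → ‖PhiF (-91 * d ^ 2) (-330 * d ^ 3) F s‖ ≤
      C * (1 + ‖s‖) * (1 + 1 / s.re) ^ 2 :=
  growth_twist disc17 hecke17 belongs17 hd hF

end Pool.Agent.H1.OB
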