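import Pool.Graph.R_seed8.TH270.MS.GrowthLeft
import Pool.Agent.H1.OB.Add

/-!
# Growth to the left of the central line for additive twists
-/

set_option autoImplicit false

open MeasureTheory Filter Topology Set Complex
open CongruenceSubgroup
open scoped MatrixGroups

namespace Pool.Agent.H1.OB

open Pool.Agent.TH270.MS

/-- `Pool.Agent.TH270.MS.growth_left` for all arithmetic groups for which the cusp `∞` has width `1` -/
theorem growth_left {Γ : Subgroup (GL (Fin 2) ℝ)} [Γ.IsArithmetic] (hw : Γ.strictWidthInfty = 1)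
    (f : CuspForm Γ 2) :
    ∃ G : ℂ → ℂ, Differentiable ℂ G ∧
      (∀ s : ℂ, 3 < s.re → G s = LSeries (fun n => (UpperHalfPlane.qExpansion 1 f).coeff n) s) ∧
      ∃ (C : ℝ) (κ : ℕ), ∀ s : ℂ, 1 / 2 < s.re → ‖G s‖ ≤ C * (1 + ‖s‖) ^ κ := by
  have hk : (0 : ℤ) < 2 := by norm_num
  have hsum : ∀ s : ℂ, 2 < s.re →
      HasSum (fun n : ℕ => (UpperHalfPlane.qExpansion 1 f).coeff n / (n : ℂ) ^ s)
        (ModularForm.L (k := 2) hk f s) := by
    intro s hs
    have h := CuspForm.hasSum_L hk f (s := s) (by norm_num; exact hs)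
    rw [hw] at h
    simpa using h
  refine ⟨ModularForm.L (k := 2) hk f, CuspForm.differentiable_L hk f, ?_, ?_⟩
  · intro s hs
    rw [← (hsum s (by linarith)).tsum_eq, LSeries]
    refine tsum_congr fun n => ?_
    rcases Nat.eq_zero_or_pos n with h0 | h0
    · subst h0
      have hs0 : s ≠ 0 := by
        intro h
        rw [h] at hs
        norm_num at hs
      simp [Complex.zero_cpow hs0]
    · rw [LSeries.term_of_ne_zero h0.ne']
  · obtain ⟨C₂, -, hC₂⟩ := GrowL.mellin_strip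
      (fun t : ℝ => f (UpperHalfPlane.ofComplex (I * t)))
      (fun s => ((CuspForm.isStrongFEPair hk f).hasMellin s).1) (-1) 3
    obtain ⟨Cr, hCr0, hCr⟩ := GrowL.right f
    obtain ⟨Cl, hCl0, hCl⟩ := GrowL.left f
    have hL : GrowL.Lam f = mellin (fun t : ℝ => f (UpperHalfPlane.ofComplex (I * t))) :=
      CuspForm.Λ_eq_mellin hk f
    have hd : Differentiable ℂ (GrowL.Lam f) := CuspForm.differentiable_Λ hk f
    have hstrip := GrowL.strip (L := GrowL.Lam f) hd (C₂ := C₂) (C₁ := Cr + Cl)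
      (fun z h0 h1 => by rw [hL]; exact hC₂ z h0 h1) (by positivity)
      (fun z hz => by
        have h1 := hCr z hz
        rw [← hL] at h1
        have hne : Complex.Gamma z ≠ 0 := Complex.Gamma_ne_zero_of_re_pos (by rw [hz]; norm_num)
        rw [norm_mul, norm_inv, ← div_eq_mul_inv, div_le_iff₀ (norm_pos_iff.2 hne)]
        refine h1.trans ?_
        gcongr
        linarith)
      (fun z hz => by
        have h1 := hCl z hz
        have h2 := GrowL.Gamma_shift_le z 4
        have e : z + ((4 : ℕ) : ℂ) = (starRingEnd ℂ) (2 - z) := by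
          apply Complex.ext
          · simp [hz]; norm_num
          · simp
        rw [e, Complex.Gamma_conj, Complex.norm_conj] at h2
        rw [norm_mul]
        have hP : 0 ≤ ∏ j ∈ Finset.range 4, ‖z + j‖ := Finset.prod_nonneg fun _ _ => norm_nonneg _
        calc ‖GrowL.Lam f z‖ * ‖(Complex.Gamma z)⁻¹‖
            ≤ Cl * ‖Complex.Gamma (2 - z)‖ * ‖(Complex.Gamma z)⁻¹‖ := by gcongr
          _ = Cl * (‖Complex.Gamma (2 - z)‖ * ‖(Complex.Gamma z)⁻¹‖) := by ring
          _ ≤ Cl * ∏ j ∈ Finset.range 4, ‖z + j‖ := by gcongr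
          _ ≤ _ := by gcongr; linarith)
    -- the half plane `Re s ≥ 3`
    set C₃ : ℝ := ∑' n : ℕ, ‖(UpperHalfPlane.qExpansion 1 f).coeff n / (n : ℂ) ^ (3 : ℂ)‖ with hC₃
    have hC₃0 : 0 ≤ C₃ := tsum_nonneg fun n => norm_nonneg _
    have h3s : Summable fun n : ℕ => ‖(UpperHalfPlane.qExpansion 1 f).coeff n / (n : ℂ) ^ (3 : ℂ)‖ :=
      (hsum 3 (by norm_num)).summable.norm
    have hfar : ∀ s : ℂ, 3 ≤ s.re → ‖ModularForm.L (k := 2) hk f s‖ ≤ C₃ := by
      intro s hs
      rw [← (hsum s (by linarith)).tsum_eq]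
      apply tsum_of_norm_bounded h3s.hasSum
      intro n
      rcases Nat.eq_zero_or_pos n with h0 | h0
      · subst h0
        have hs0 : s ≠ 0 := by
          intro h
          rw [h] at hs
          norm_num at hs
        simp [Complex.zero_cpow hs0]
      · have hn : (1 : ℝ) ≤ n := by exact_mod_cast h0
        rw [norm_div, norm_div, Complex.norm_natCast_cpow_of_pos h0,
          Complex.norm_natCast_cpow_of_pos h0]
        have : (n : ℝ) ^ (3 : ℂ).re ≤ (n : ℝ) ^ s.re :=
          Real.rpow_le_rpow_of_exponent_le hn (by simpa using hs)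
        gcongr
    -- the factor
    have hLE : ∀ s : ℂ, ModularForm.L (k := 2) hk f s =
        (2 * Real.pi : ℂ) ^ s * (GrowL.Lam f s * (Complex.Gamma s)⁻¹) := by
      intro s
      show ModularForm.Λ hk f s * (2 / Gammaℂ s) = _
      rw [Gammaℂ, ← div_div, ← div_div, div_self two_ne_zero, one_div, cpow_neg, inv_inv]
      show _ = (2 * Real.pi : ℂ) ^ s * (ModularForm.Λ hk f s * (Complex.Gamma s)⁻¹)
      ring
    have h2pi : (0 : ℝ) < 2 * Real.pi := by positivity
    have h2pi1 : (1 : ℝ) ≤ 2 * Real.pi := by linarith [Real.pi_gt_three]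
    refine ⟨C₃ + (2 * Real.pi) ^ (3 : ℝ) * (Cr + Cl) * 5 ^ 4, 4, fun s hs => ?_⟩
    have hone : (1 : ℝ) ≤ (1 + ‖s‖) ^ 4 := one_le_pow₀ (by linarith [norm_nonneg s])
    rcases le_or_gt 3 s.re with h3 | h3
    · calc ‖ModularForm.L (k := 2) hk f s‖ ≤ C₃ := hfar s h3
        _ ≤ C₃ + (2 * Real.pi) ^ (3 : ℝ) * (Cr + Cl) * 5 ^ 4 :=
            le_add_of_nonneg_right (by positivity)
        _ ≤ _ := le_mul_of_one_le_right (by positivity) hone
    · rw [hLE, norm_mul]
      have h1 : ‖(2 * Real.pi : ℂ) ^ s‖ ≤ (2 * Real.pi) ^ (3 : ℝ) := by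
        have e : (2 * Real.pi : ℂ) = ((2 * Real.pi : ℝ) : ℂ) := by push_cast; rfl
        rw [e, Complex.norm_cpow_eq_rpow_re_of_pos h2pi]
        exact Real.rpow_le_rpow_of_exponent_le h2pi1 h3.le
      have h2 := hstrip s (by linarith) h3.le
      have h5 : ‖s + 5‖ ^ 4 ≤ 5 ^ 4 * (1 + ‖s‖) ^ 4 := by
        rw [← mul_pow]
        apply pow_le_pow_left₀ (norm_nonneg _)
        refine (norm_add_le _ _).trans ?_
        have : ‖(5 : ℂ)‖ = 5 := by norm_num
        rw [this]
        linarith [norm_nonneg s]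
      calc ‖(2 * Real.pi : ℂ) ^ s‖ * ‖GrowL.Lam f s * (Complex.Gamma s)⁻¹‖
          ≤ (2 * Real.pi) ^ (3 : ℝ) * ((Cr + Cl) * (5 ^ 4 * (1 + ‖s‖) ^ 4)) := by
            gcongr
            exact h2.trans (by gcongr)
        _ = (2 * Real.pi) ^ (3 : ℝ) * (Cr + Cl) * 5 ^ 4 * (1 + ‖s‖) ^ 4 := by ring
        _ ≤ _ := by
            gcongr
            linarith



/-! ### translates -/

open ConjAct Pointwise Matrix.GeneralLinearGroup UpperHalfPlane
open scoped ModularForm

variable {N : ℕ} [NeZero N]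

/-- the conjugate of `Γ₀(N)` by a translation -/
noncomputable def Gt (N : ℕ) (α : ℚ) : Subgroup (GL (Fin 2) ℝ) :=
  toConjAct (upperRightHom (α : ℝ))⁻¹ • (Gamma0 N : Subgroup (GL (Fin 2) ℝ))

instance gt_arith (α : ℚ) : (Gt N α).IsArithmetic := by
  have h := Subgroup.IsArithmetic.conj (Gamma0 N : Subgroup (GL (Fin 2) ℝ))
    (upperRightHom (α : ℚ))⁻¹
  have e : ((upperRightHom (α : ℚ))⁻¹ : GL (Fin 2) ℚ).map (Rat.castHom ℝ) =
      (upperRightHom (α : ℝ))⁻¹ := by
    rw [map_inv]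
    congr 1
    ext i j
    fin_cases i <;> fin_cases j <;> simp [upperRightHom]
  rw [e] at h
  exact h

omit [NeZero N] in
theorem gt_periods (α : ℚ) : (Gt N α).strictPeriods =
    (Gamma0 N : Subgroup (GL (Fin 2) ℝ)).strictPeriods := by
  ext x
  rw [Subgroup.mem_strictPeriods_iff, Subgroup.mem_strictPeriods_iff]
  unfold Gt
  rw [Subgroup.mem_pointwise_smul_iff_inv_smul_mem, ← map_inv, inv_inv]
  have e : toConjAct (upperRightHom (α : ℝ)) • (upperRightHom x : GL (Fin 2) ℝ) =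
      upperRightHom x := by
    rw [toConjAct_smul, ← AddChar.map_add_eq_mul, ← AddChar.map_neg_eq_inv,
      ← AddChar.map_add_eq_mul]
    congr 1
    ring
  rw [e]

open Classical in
/-- the width as a function of the group of the periods -/
noncomputable def wid (P : AddSubgroup ℝ) : ℝ :=
  if h : DiscreteTopology P then
    |Exists.choose <| P.isAddCyclic_iff_exists_zmultiples_eq_top.mp
      <| AddSubgroup.discrete_iff_addCyclic.mpr h|
  else 0

theorem width_congr {A B : Subgroup (GL (Fin 2) ℝ)} (h : A.strictPeriods = B.strictPeriods) :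
    A.strictWidthInfty = B.strictWidthInfty := by
  have h1 : A.strictWidthInfty = wid A.strictPeriods := rfl
  have h2 : B.strictWidthInfty = wid B.strictPeriods := rfl
  rw [h1, h2, h]

theorem gt_width (α : ℚ) : (Gt N α).strictWidthInfty = 1 := by
  rw [width_congr (gt_periods α)]
  exact CongruenceSubgroup.strictWidthInfty_Gamma0 N

/-- the translate of the form -/
noncomputable def ft (f : CuspForm (Gamma0 N : Subgroup (GL (Fin 2) ℝ)) 2) (α : ℚ) :
    CuspForm (Gt N α) 2 := CuspForm.translate f (upperRightHom (α : ℝ))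

omit [NeZero N] in
theorem ft_apply (f : CuspForm (Gamma0 N : Subgroup (GL (Fin 2) ℝ)) 2) (α : ℚ)
    {y : ℝ} (hy : 0 < y) (u : ℝ) :
    ft f α ⟨(u : ℂ) + (y : ℂ) * Complex.I, by simpa using hy⟩ = hor f y hy (u + α) := by
  have h1 : ∀ τ : UpperHalfPlane, ft f α τ = f ((α : ℝ) +ᵥ τ) := by
    intro τ
    have h2 : ft f α τ = (⇑f ∣[(2 : ℤ)] (upperRightHom (α : ℝ) : GL (Fin 2) ℝ)) τ := rfl
    rw [h2]
    have h3 : (upperRightHom (α : ℝ) : GL (Fin 2) ℝ) • τ = (α : ℝ) +ᵥ τ := by
      ext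
      simp [σ, num, denom, coe_vadd, UpperHalfPlane.coe_smul, num, add_comm]
    simp_rw [ModularForm.slash_def, h3]
    simp [σ, denom, Matrix.GeneralLinearGroup.val_det_apply, denom]
  rw [h1]
  unfold hor
  congr 1
  ext
  simp [UpperHalfPlane.coe_vadd]
  ring

/-- the coefficients of the translate -/
theorem ft_coeff (f : CuspForm (Gamma0 N : Subgroup (GL (Fin 2) ℝ)) 2) (α : ℚ) (n : ℕ) :
    (UpperHalfPlane.qExpansion 1 (ft f α)).coeff n = Pool.Agent.W165.RS.ac f n * ea α n := by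
  obtain ⟨y, hy⟩ : ∃ y : ℝ, 0 < y := ⟨1, one_pos⟩
  rw [ac_shift f hy α n, ModularFormClass.qExpansion_coeff_eq_intervalIntegral
      (Γ := Gt N α) (k := 2) (ft f α) one_pos
      (by rw [gt_periods]; exact Pool.Agent.W165.RS.one_mem0) n hy]
  rw [Complex.ofReal_one, div_one, one_mul]
  refine intervalIntegral.integral_congr fun u _ => ?_
  have h1 := ft_apply f α hy u
  simp only [one_div, inv_pow]
  rw [h1]

/-- the continuation of the additive twist, with its growth -/
theorem growth_add (f : CuspForm (Gamma0 N : Subgroup (GL (Fin 2) ℝ)) 2) (α : ℚ) :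
    ∃ G : ℂ → ℂ, Differentiable ℂ G ∧
      (∀ s : ℂ, 3 < s.re → G s = LSeries (fun n => Pool.Agent.W165.RS.ac f n * ea α n) s) ∧
      ∃ (C : ℝ) (κ : ℕ), ∀ s : ℂ, 1 / 2 < s.re → ‖G s‖ ≤ C * (1 + ‖s‖) ^ κ := by
  obtain ⟨G, h1, h2, h3⟩ := growth_left (gt_width (N := N) α) (ft f α)
  refine ⟨G, h1, fun s hs => ?_, h3⟩
  rw [h2 s hs]
  congr 1
  funext n
  exact ft_coeff f α n

end Pool.Agent.H1.OB
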