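import Pool.Graph.R_seed8.TH270.MS.GrowthF
import Pool.Agent.H1.OB.Left
import Pool.Agent.H1.OB.Tws

/-!
# Polynomial growth of the `L`-series of the quadratic twists across the central line
-/

set_option autoImplicit false

open Filter Topology Set Complex
open CongruenceSubgroup
open scoped MatrixGroups

namespace Pool.Agent.H1.OB

open Pool.Agent.W165.RS (ac ac_zero)
open Pool.Agent.W263.BSD (IsLSeries GoodPrime pointCount good_of_large)
open Pool.Agent.TH942.RZ.Growth (Df Ef lsummable Df_differentiable Ef_differentiable)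
open Pool.Agent.TH270.MS.EQ (Ef_le' Df_ge')

/-- **The growth of the incomplete `L`-series to the left of the centre.** -/
theorem growth_F {a b : ℤ} {F : ℂ → ℂ} (hΔ : 4 * a ^ 3 + 27 * b ^ 2 ≠ 0) (hF : IsLSeries a b F)
    {N : ℕ} (hN0 : N ≠ 0) {c : ℕ → ℂ} (hf : HSeq N c)
    (hb : ∀ p : ℕ, GoodPrime a b p → c p = (p : ℂ) - (pointCount a b p : ℂ))
    (hS : ∃ C : ℝ, 0 ≤ C ∧ ∀ M : ℕ, ‖∑ n ∈ Finset.range (M + 1), c n‖ ≤
      C * ((M : ℝ) + 1) * (1 + Real.log ((M : ℝ) + 1)))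
    (hG : ∃ G : ℂ → ℂ, Differentiable ℂ G ∧ (∀ s : ℂ, 3 < s.re → G s = LSeries c s) ∧
      ∃ (C : ℝ) (κ : ℕ), ∀ s : ℂ, 1 / 2 < s.re → ‖G s‖ ≤ C * (1 + ‖s‖) ^ κ) :
    ∃ (C : ℝ) (κ : ℕ), ∀ z : ℂ, 1 - 1 / 8 < z.re → ‖F z‖ ≤ C * (1 + ‖z‖) ^ κ := by
  classical
  obtain ⟨C, hC, hS⟩ := hS
  obtain ⟨G, hGd, hGL, C₁, κ, hG⟩ := hG
  have hS' : ∀ M : ℕ, ‖∑ k ∈ Finset.Icc 1 M, c k‖ ≤
      C * ((M : ℝ) + 1) * (1 + Real.log ((M : ℝ) + 1)) := by
    intro M
    have e : ∑ n ∈ Finset.range (M + 1), c n = ∑ k ∈ Finset.Icc 1 M, c k := by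
      have : Finset.range (M + 1) = insert 0 (Finset.Icc 1 M) := by
        ext x
        simp only [Finset.mem_range, Finset.mem_insert, Finset.mem_Icc]
        omega
      rw [this, Finset.sum_insert (by simp), hf.zero, zero_add]
    rw [← e]
    exact hS M
  obtain ⟨D, hD⟩ := good_of_large hΔ
  obtain ⟨S, hSe⟩ : ∃ S : Finset ℕ, S = (Finset.range (D + N + 1)).filter
      (fun p => p.Prime ∧ (¬ GoodPrime a b p ∨ p ∣ N)) := ⟨_, rfl⟩
  have hSp : ∀ p ∈ S, p.Prime := by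
    intro p hp
    rw [hSe, Finset.mem_filter] at hp
    exact hp.2.1
  have hSn : ∀ p : ℕ, p.Prime → p ∉ S → GoodPrime a b p ∧ ¬ p ∣ N := by
    intro p hp hpS
    rw [hSe, Finset.mem_filter, Finset.mem_range] at hpS
    by_cases hlt : p < D + N + 1
    · by_contra hcon
      apply hpS
      refine ⟨hlt, hp, ?_⟩
      tauto
    · refine ⟨hD p hp (by omega), fun hd => ?_⟩
      have := Nat.le_of_dvd (Nat.pos_of_ne_zero hN0) hd
      omega
  have hSg : ∀ p ∈ S, GoodPrime a b p → 3 ≤ p ∧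
      ‖(p : ℂ) - (pointCount a b p : ℂ)‖ ≤ 1 := by
    intro p hp hg
    rw [hSe, Finset.mem_filter] at hp
    have hdN : p ∣ N := by
      rcases hp.2.2 with h | h
      · exact absurd hg h
      · exact h
    constructor
    · have h2 := hp.2.1.two_le
      rcases Nat.lt_or_ge p 3 with h | h
      · exfalso
        have hp2 : p = 2 := by omega
        apply hg.2
        rw [hp2]
        exact Dvd.intro _ rfl
      · exact h
    · rw [← hb p hg]
      exact hf.bad p hp.2.1 hdN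
  obtain ⟨P1, hP1⟩ : ∃ P1 : ℂ → ℂ, P1 = fun z => ∏ p ∈ S, Ef c N p z := ⟨_, rfl⟩
  obtain ⟨P2, hP2⟩ : ∃ P2 : ℂ → ℂ, P2 = fun z => ∏ p ∈ S,
    (if GoodPrime a b p then Df a b p z else 1) := ⟨_, rfl⟩
  have hP1d : Differentiable ℂ P1 := by
    rw [hP1]
    intro w
    refine DifferentiableAt.fun_finsetProd fun p hp => ?_
    exact Ef_differentiable _ _ (hSp p hp) w
  have hP2d : Differentiable ℂ P2 := by
    rw [hP2]
    intro w
    refine DifferentiableAt.fun_finsetProd fun p hp => ?_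
    split_ifs
    · exact Df_differentiable _ _ (hSp p hp) w
    · exact differentiableAt_const _
  have hA1 : AnalyticOnNhd ℂ (fun z => F z * P2 z) Set.univ :=
    (hF.1.mul hP2d).differentiableOn.analyticOnNhd isOpen_univ
  have hA2 : AnalyticOnNhd ℂ (fun z => G z * P1 z) Set.univ :=
    (hGd.mul hP1d).differentiableOn.analyticOnNhd isOpen_univ
  have hEq : Set.EqOn (fun z => F z * P2 z) (fun z => G z * P1 z) Set.univ := by
    refine hA1.eqOn_of_preconnected_of_eventuallyEq hA2 isPreconnected_univ (z₀ := 4)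
      (Set.mem_univ _) ?_
    have hV : IsOpen {z : ℂ | 3 < z.re} := isOpen_lt continuous_const Complex.continuous_re
    have h4 : (4 : ℂ) ∈ {z : ℂ | 3 < z.re} := by
      show (3 : ℝ) < (4 : ℂ).re
      norm_num
    filter_upwards [hV.mem_nhds h4] with z hz
    have hz' : 3 < z.re := hz
    have hk := key_identity hF hf hb hz' (lsummable hC hS' hz') S hSp hSn
    have h5 : G z = LSeries c z := hGL z hz'
    rw [← h5] at hk
    rw [hP1, hP2]
    exact hk
  have hB1 : ∀ z : ℂ, 7 / 8 < z.re → ‖P1 z‖ ≤ ∏ p ∈ S, (2 + ‖c p‖) := by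
    intro z hz
    rw [hP1]
    simp only
    rw [norm_prod]
    exact Finset.prod_le_prod (fun p _ => norm_nonneg _) fun p hp => Ef_le' (hSp p hp) hz
  have hB2 : ∀ z : ℂ, 7 / 8 < z.re → (1 / 10 : ℝ) ^ S.card ≤ ‖P2 z‖ := by
    intro z hz
    rw [hP2]
    simp only
    rw [norm_prod, ← Finset.prod_const]
    refine Finset.prod_le_prod (fun p _ => by norm_num) fun p hp => ?_
    split_ifs with hg
    · obtain ⟨h3, h1⟩ := hSg p hp hg
      exact Df_ge' (hSp p hp) h3 h1 hz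
    · rw [norm_one]; norm_num
  refine ⟨(10 : ℝ) ^ S.card * (|C₁| * ∏ p ∈ S, (2 + ‖c p‖)), κ, fun z hz => ?_⟩
  have hz' : 7 / 8 < z.re := by
    norm_num at hz
    linarith
  have h1 : F z * P2 z = G z * P1 z := hEq (Set.mem_univ z)
  have h2 : ‖F z‖ * ‖P2 z‖ = ‖G z‖ * ‖P1 z‖ := by rw [← norm_mul, h1, norm_mul]
  have h3 := hB2 z hz'
  have h4 := hG z (by linarith)
  have h5 := hB1 z hz'
  have h6 : ‖F z‖ * (1 / 10 : ℝ) ^ S.card ≤ |C₁| * (1 + ‖z‖) ^ κ * ∏ p ∈ S, (2 + ‖c p‖) := by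
    calc ‖F z‖ * (1 / 10 : ℝ) ^ S.card ≤ ‖F z‖ * ‖P2 z‖ :=
          mul_le_mul_of_nonneg_left h3 (norm_nonneg _)
      _ = ‖G z‖ * ‖P1 z‖ := h2
      _ ≤ (|C₁| * (1 + ‖z‖) ^ κ) * ∏ p ∈ S, (2 + ‖c p‖) := by
          refine mul_le_mul (h4.trans ?_) h5 (norm_nonneg _) (by positivity)
          exact mul_le_mul_of_nonneg_right (le_abs_self C₁) (by positivity)
  have h7 : (10 : ℝ) ^ S.card * (1 / 10 : ℝ) ^ S.card = 1 := by
    rw [← mul_pow]
    norm_num
  calc ‖F z‖ = (10 : ℝ) ^ S.card * (‖F z‖ * (1 / 10 : ℝ) ^ S.card) := by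
        rw [mul_left_comm, h7, mul_one]
    _ ≤ (10 : ℝ) ^ S.card * (|C₁| * (1 + ‖z‖) ^ κ * ∏ p ∈ S, (2 + ‖c p‖)) := by gcongr
    _ = _ := by ring



variable {N : ℕ} [NeZero N] {f : CuspForm (Gamma0 N : Subgroup (GL (Fin 2) ℝ)) 2}

theorem add_summable (f : CuspForm (Gamma0 N : Subgroup (GL (Fin 2) ℝ)) 2) (α : ℝ) {s : ℂ}
    (hs : 3 < s.re) : LSeriesSummable (fun n => ac f n * ea α n) s := by
  obtain ⟨C, hC, h⟩ := psum_add f
  refine lsummable hC (fun M => ?_) hs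
  have e : ∑ n ∈ Finset.range (M + 1), ac f n * ea α n =
      ∑ k ∈ Finset.Icc 1 M, ac f k * ea α k := by
    have : Finset.range (M + 1) = insert 0 (Finset.Icc 1 M) := by
      ext x
      simp only [Finset.mem_range, Finset.mem_insert, Finset.mem_Icc]
      omega
    rw [this, Finset.sum_insert (by simp), ac_zero, zero_mul, zero_add]
  rw [← e]
  exact h α M

/-- the continuation of the `L`-series of the coefficients times a periodic function -/
theorem growth_per (f : CuspForm (Gamma0 N : Subgroup (GL (Fin 2) ℝ)) 2) {m : ℕ} [NeZero m]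
    (g : ZMod m → ℂ) :
    ∃ G : ℂ → ℂ, Differentiable ℂ G ∧
      (∀ s : ℂ, 3 < s.re → G s = LSeries (fun n => g n * ac f n) s) ∧
      ∃ (C : ℝ) (κ : ℕ), ∀ s : ℂ, 1 / 2 < s.re → ‖G s‖ ≤ C * (1 + ‖s‖) ^ κ := by
  obtain ⟨γ, hγ⟩ := fourier g
  have h := fun j : ZMod m => growth_add f ((j.val : ℚ) / m)
  choose G hGd hGL C κ hG using h
  refine ⟨fun s => ∑ j : ZMod m, γ j * G j s, ?_, fun s hs => ?_, ∑ j : ZMod m, ‖γ j‖ * |C j|,
    ∑ j : ZMod m, κ j, fun s hs => ?_⟩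
  · exact Differentiable.fun_sum fun j _ => (hGd j).const_mul _
  · have e : (fun n : ℕ => g n * ac f n) =
        ∑ j : ZMod m, γ j • (fun n : ℕ => ac f n * ea (((j.val : ℚ) / m : ℚ) : ℝ) n) := by
      funext n
      rw [Finset.sum_apply, hγ, Finset.sum_mul]
      refine Finset.sum_congr rfl fun j _ => ?_
      rw [Pi.smul_apply, smul_eq_mul]
      push_cast
      ring
    rw [e, LSeries_sum fun j _ => (add_summable f _ hs).smul _]
    refine Finset.sum_congr rfl fun j _ => ?_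
    rw [LSeries_smul, hGL j s hs]
  · refine (norm_sum_le _ _).trans ?_
    rw [Finset.sum_mul]
    refine Finset.sum_le_sum fun j _ => ?_
    rw [norm_mul, mul_assoc]
    refine mul_le_mul_of_nonneg_left ?_ (norm_nonneg _)
    have h1 : (1 : ℝ) ≤ 1 + ‖s‖ := by linarith [norm_nonneg s]
    calc ‖G j s‖ ≤ C j * (1 + ‖s‖) ^ κ j := hG j s hs
      _ ≤ |C j| * (1 + ‖s‖) ^ κ j :=
        mul_le_mul_of_nonneg_right (le_abs_self _) (by positivity)
      _ ≤ |C j| * (1 + ‖s‖) ^ (∑ j : ZMod m, κ j) :=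
        mul_le_mul_of_nonneg_left (pow_le_pow_right₀ h1
          (Finset.single_le_sum (fun i _ => Nat.zero_le _) (Finset.mem_univ j))) (abs_nonneg _)

/-- **the growth of the `L`-series of a quadratic twist to the left of the centre** -/
theorem growthF_twist {a b : ℤ} (hΔ : 4 * a ^ 3 + 27 * b ^ 2 ≠ 0)
    (hf : Pool.Agent.TH941.Hecke f)
    (hb : Pool.Agent.TH941.Belongs a b f) {d : ℤ} (hd : d ≠ 0) {F : ℂ → ℂ}
    (hF : IsLSeries (a * d ^ 2) (b * d ^ 3) F) :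
    ∃ (C : ℝ) (κ : ℕ), ∀ z : ℂ, 1 - 1 / 8 < z.re → ‖F z‖ ≤ C * (1 + ‖z‖) ^ κ := by
  have hΔ' : 4 * (a * d ^ 2) ^ 3 + 27 * (b * d ^ 3) ^ 2 ≠ 0 := by
    have e : 4 * (a * d ^ 2) ^ 3 + 27 * (b * d ^ 3) ^ 2 = (4 * a ^ 3 + 27 * b ^ 2) * d ^ 6 := by ring
    rw [e]
    exact mul_ne_zero hΔ (pow_ne_zero 6 hd)
  have hN : 2 * N * d.natAbs ≠ 0 :=
    mul_ne_zero (mul_ne_zero two_ne_zero (NeZero.ne N)) (Int.natAbs_ne_zero.2 hd)
  have : NeZero (4 * d.natAbs) := ⟨by have := Int.natAbs_ne_zero.2 hd; omega⟩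
  refine growth_F hΔ' hF hN (tc_hseq hf d) (fun p hp => ?_) (tc_psum f hd) ?_
  · have h1 := count_twist hp
    have h2 := hb p (good_twist hp).1
    unfold tc
    rw [h2]
    have h3 : (((p : ℤ) - pointCount (a * d ^ 2) (b * d ^ 3) p : ℤ) : ℂ) =
        ((chi d p * ((p : ℤ) - pointCount a b p) : ℤ) : ℂ) := by rw [h1]
    push_cast at h3
    rw [h3]
  · have h := growth_per f (m := 4 * d.natAbs) fun x => ((chi d x.val : ℤ) : ℂ)
    have e : (fun n : ℕ => (fun x : ZMod (4 * d.natAbs) => ((chi d x.val : ℤ) : ℂ))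
        (n : ZMod (4 * d.natAbs)) * ac f n) = tc f d := by
      funext n
      simp only
      rw [ZMod.val_natCast, chi_per]
      rfl
    rw [e] at h
    exact h

end Pool.Agent.H1.OB
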