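import Pool.Graph.R_seed8.TH942.RZ.Growth

/-!
# Growth of the incomplete `L`-series from the partial sums, for a general sequence of coefficients

This is `Pool.Agent.TH942.RZ.growth` with the coefficients of a cusp form replaced by a sequence with
the Hecke relations; it is used for the coefficients of twists.
-/

set_option autoImplicit false

namespace Pool.Agent.H1.OB

open MeasureTheory Filter Topology Asymptotics
open Pool.Agent.TH942.RZ.Growth
open Pool.Agent.W263.BSD (IsLSeries PhiF GoodPrime pointCount small ef ef_ne_zero good_of_large)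

/-- a sequence with the Hecke relations of a newform of weight two whose level has the same prime
factors as `N` -/
structure HSeq (N : ℕ) (c : ℕ → ℂ) : Prop where
  zero : c 0 = 0
  one : c 1 = 1
  mul : ∀ m n : ℕ, Nat.Coprime m n → c (m * n) = c m * c n
  pow : ∀ p j : ℕ, p.Prime → c (p ^ (j + 2)) = c p * c (p ^ (j + 1)) -
      (if p ∣ N then 0 else (p : ℂ) * c (p ^ j))
  bad : ∀ p : ℕ, p.Prime → p ∣ N → ‖c p‖ ≤ 1

section

variable {a b : ℤ} {N : ℕ} {c : ℕ → ℂ}

lemma local_factor (hf : HSeq N c) {p : ℕ} (hp : p.Prime) {z : ℂ}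
    (hs : LSeriesSummable c z) :
    (∑' e : ℕ, LSeries.term c z (p ^ e)) * Ef c N p z = 1 := by
  have hinj : Function.Injective fun e : ℕ => p ^ e := Nat.pow_right_injective hp.two_le
  have hsum : Summable fun e : ℕ => LSeries.term c z (p ^ e) := hs.comp_injective hinj
  have hp0 : (p : ℂ) ≠ 0 := by exact_mod_cast hp.ne_zero
  have hpow : ∀ e : ℕ, ((p ^ e : ℕ) : ℂ) ^ z = ((p : ℂ) ^ z) ^ e := by
    intro e
    induction e with
    | zero => simp
    | succ e ih =>
      rw [pow_succ, pow_succ, ← ih, Nat.cast_mul, Complex.natCast_mul_natCast_cpow]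
  have hterm : ∀ e : ℕ, LSeries.term c z (p ^ e) =
      c (p ^ e) * ((p : ℂ) ^ (-z)) ^ e := by
    intro e
    rw [LSeries.term_of_ne_zero (pow_ne_zero e hp.ne_zero), hpow, Complex.cpow_neg, inv_pow,
      div_eq_mul_inv]
  unfold Ef
  refine geom_rec hsum _ _ ?_ ?_ ?_
  · rw [hterm]
    simp [hf.one]
  · rw [hterm]
    simp
  · intro e
    rw [hterm, hterm, hterm, hf.pow p e hp, cpow_sq hp]
    split_ifs <;> ring

lemma euler (hf : HSeq N c) {z : ℂ} (hs : LSeriesSummable c z) :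
    HasProd (Set.mulIndicator {p | Nat.Prime p} fun p => ∑' e : ℕ, LSeries.term c z (p ^ e))
      (LSeries c z) := by
  refine EulerProduct.eulerProduct_hasProd_mulIndicator (f := LSeries.term c z) ?_ ?_
    hs.norm (LSeries.term_zero _ _)
  · rw [LSeries.term_of_ne_zero one_ne_zero, hf.one]
    simp
  · intro m n hmn
    rcases Nat.eq_zero_or_pos m with rfl | hm
    · simp
    rcases Nat.eq_zero_or_pos n with rfl | hn
    · simp
    rw [LSeries.term_of_ne_zero (Nat.mul_ne_zero hm.ne' hn.ne'), LSeries.term_of_ne_zero hm.ne',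
      LSeries.term_of_ne_zero hn.ne', hf.mul m n hmn, Nat.cast_mul,
      Complex.natCast_mul_natCast_cpow, mul_div_mul_comm]

open Classical in
lemma key_identity {F : ℂ → ℂ} (hF : IsLSeries a b F) (hf : HSeq N c) (hb : ∀ p : ℕ, GoodPrime a b p → c p = (p : ℂ) - (pointCount a b p : ℂ))
    {z : ℂ} (hz : 3 < z.re) (hs : LSeriesSummable c z) (S : Finset ℕ)
    (hSp : ∀ p ∈ S, p.Prime) (hS : ∀ p : ℕ, p.Prime → p ∉ S → GoodPrime a b p ∧ ¬ p ∣ N) :
    F z * ∏ p ∈ S, (if GoodPrime a b p then Df a b p z else 1) =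
      LSeries c z * ∏ p ∈ S, Ef c N p z := by
  have h1 := hF.2 z (by linarith)
  have hprod : ∀ φ : ℕ → ℂ, HasProd (fun p : ℕ => if p ∈ S then φ p else 1) (∏ p ∈ S, φ p) := by
    intro φ
    have e : ∏ p ∈ S, φ p = ∏ p ∈ S, (if p ∈ S then φ p else 1) :=
      Finset.prod_congr rfl fun p hp => by rw [if_pos hp]
    rw [e]
    exact hasProd_prod_of_ne_finset_one fun p hp => by rw [if_neg hp]
  have h3 := h1.mul (hprod fun p => if GoodPrime a b p then Df a b p z else 1)
  have h4 := (euler hf hs).mul (hprod fun p => Ef c N p z)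
  refine HasProd.unique ?_ h4
  convert h3 using 1
  funext p
  by_cases hp : p.Prime
  · rw [Set.mulIndicator_of_mem (show p ∈ {p | Nat.Prime p} from hp)]
    have hloc := local_factor hf hp hs
    by_cases hpS : p ∈ S
    · rw [if_pos hpS, if_pos hpS, hloc]
      by_cases hg : GoodPrime a b p
      · rw [if_pos hg, if_pos hg]
        have hne : ef a b p (z - 1) ≠ 0 := ef_ne_zero hp (by simp; linarith)
        have he : ef a b p (z - 1) = Df a b p z := by
          unfold ef Df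
          rw [show 1 + (z - 1) = z by ring]
        rw [he] at hne
        exact (inv_mul_cancel₀ hne).symm
      · rw [if_neg hg, if_neg hg, one_mul]
    · obtain ⟨hg, hN⟩ := hS p hp hpS
      rw [if_neg hpS, if_neg hpS, if_pos hg, mul_one, mul_one]
      have he : Ef c N p z = 1 - ((p : ℂ) - (pointCount a b p : ℂ)) * (p : ℂ) ^ (-z) +
          (p : ℂ) ^ (1 - 2 * z) := by
        unfold Ef
        rw [if_neg hN, hb p hg]
      rw [he] at hloc
      exact eq_inv_of_mul_eq_one_left hloc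
  · have hg : ¬ GoodPrime a b p := fun h => hp h.1
    have hpS : p ∉ S := fun h => hp (hSp p h)
    rw [Set.mulIndicator_of_notMem (show p ∉ {p | Nat.Prime p} from hp), if_neg hpS, if_neg hpS,
      if_neg hg]

end

theorem growth {a b : ℤ} {F : ℂ → ℂ} (hΔ : 4 * a ^ 3 + 27 * b ^ 2 ≠ 0) (hF : IsLSeries a b F)
    {N : ℕ} (hN0 : N ≠ 0) {c : ℕ → ℂ} (hf : HSeq N c)
    (hb : ∀ p : ℕ, GoodPrime a b p → c p = (p : ℂ) - (pointCount a b p : ℂ))
    (hS : ∃ C : ℝ, 0 ≤ C ∧ ∀ M : ℕ, ‖∑ n ∈ Finset.range (M + 1), c n‖ ≤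
      C * ((M : ℝ) + 1) * (1 + Real.log ((M : ℝ) + 1))) :
    ∃ C : ℝ, ∀ s : ℂ, 0 < s.re → ‖PhiF a b F s‖ ≤ C * (1 + ‖s‖) * (1 + 1 / s.re) ^ 2 := by
  classical
  obtain ⟨C, hC, hS⟩ := hS
  have hS' : ∀ M : ℕ, ‖∑ k ∈ Finset.Icc 1 M, c k‖ ≤
      C * ((M : ℝ) + 1) * (1 + Real.log ((M : ℝ) + 1)) := by
    intro M
    have e : ∑ n ∈ Finset.range (M + 1), c n = ∑ k ∈ Finset.Icc 1 M, c k := by
      have : Finset.range (M + 1) = insert 0 (Finset.Icc 1 M) := by
        ext x
        simp only [Finset.mem_range, Finset.mem_insert, Finset.mem_Icc]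
        omega
      rw [this, Finset.sum_insert (by simp), hf.zero, zero_add]
    rw [← e]
    exact hS M
  obtain ⟨D, hD⟩ := good_of_large hΔ
  obtain ⟨S, hSe⟩ : ∃ S : Finset ℕ, S = (Finset.range (D + N + 1)).filter
      (fun p => p.Prime ∧ (¬ GoodPrime a b p ∨ p ∣ N)) := ⟨_, rfl⟩
  have hSp : ∀ p ∈ S, p.Prime := by
    intro p hp
    rw [hSe, Finset.mem_filter] at hp
    exact hp.2.1
  have hSn : ∀ p : ℕ, p.Prime → p ∉ S → GoodPrime a b p ∧ ¬ p ∣ N := by
    intro p hp hpS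
    rw [hSe, Finset.mem_filter, Finset.mem_range] at hpS
    by_cases hlt : p < D + N + 1
    · by_contra hcon
      apply hpS
      refine ⟨hlt, hp, ?_⟩
      tauto
    · refine ⟨hD p hp (by omega), fun hd => ?_⟩
      have := Nat.le_of_dvd (Nat.pos_of_ne_zero hN0) hd
      omega
  have hSg : ∀ p ∈ S, GoodPrime a b p → 3 ≤ p ∧
      ‖(p : ℂ) - (pointCount a b p : ℂ)‖ ≤ 1 := by
    intro p hp hg
    rw [hSe, Finset.mem_filter] at hp
    have hdN : p ∣ N := by
      rcases hp.2.2 with h | h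
      · exact absurd hg h
      · exact h
    constructor
    · have h2 := hp.2.1.two_le
      rcases Nat.lt_or_ge p 3 with h | h
      · exfalso
        have hp2 : p = 2 := by omega
        apply hg.2
        rw [hp2]
        exact Dvd.intro _ rfl
      · exact h
    · rw [← hb p hg]
      exact hf.bad p hp.2.1 hdN
  -- the finite products
  obtain ⟨P1, hP1⟩ : ∃ P1 : ℂ → ℂ, P1 = fun z => ∏ p ∈ S, Ef c N p z := ⟨_, rfl⟩
  obtain ⟨P2, hP2⟩ : ∃ P2 : ℂ → ℂ, P2 = fun z => ∏ p ∈ S,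
    (if GoodPrime a b p then Df a b p z else 1) := ⟨_, rfl⟩
  have hP1d : Differentiable ℂ P1 := by
    rw [hP1]
    intro w
    refine DifferentiableAt.fun_finsetProd fun p hp => ?_
    exact Ef_differentiable _ _ (hSp p hp) w
  have hP2d : Differentiable ℂ P2 := by
    rw [hP2]
    intro w
    refine DifferentiableAt.fun_finsetProd fun p hp => ?_
    split_ifs
    · exact Df_differentiable _ _ (hSp p hp) w
    · exact differentiableAt_const _
  -- the identity
  have hU : IsOpen {z : ℂ | 1 < z.re} := isOpen_lt continuous_const Complex.continuous_re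
  have hUc : IsPreconnected {z : ℂ | 1 < z.re} := (convex_halfSpace_re_gt 1).isPreconnected
  have hA1 : AnalyticOnNhd ℂ (fun z => F z * P2 z) {z : ℂ | 1 < z.re} :=
    (hF.1.mul hP2d).differentiableOn.analyticOnNhd hU
  have hA2 : AnalyticOnNhd ℂ (fun z => GZ c z * P1 z) {z : ℂ | 1 < z.re} := by
    refine DifferentiableOn.analyticOnNhd (fun z hz => ?_) hU
    exact ((GZ_differentiable hC hS' hz).mul (hP1d z)).differentiableWithinAt
  have hEq : Set.EqOn (fun z => F z * P2 z) (fun z => GZ c z * P1 z) {z : ℂ | 1 < z.re} := by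
    refine hA1.eqOn_of_preconnected_of_eventuallyEq hA2 hUc (z₀ := 4) ?_ ?_
    · show (1 : ℝ) < (4 : ℂ).re
      norm_num
    · have hV : IsOpen {z : ℂ | 3 < z.re} := isOpen_lt continuous_const Complex.continuous_re
      have h4 : (4 : ℂ) ∈ {z : ℂ | 3 < z.re} := by
        show (3 : ℝ) < (4 : ℂ).re
        norm_num
      filter_upwards [hV.mem_nhds h4] with z hz
      have hz' : 3 < z.re := hz
      have hk := key_identity hF hf hb hz' (lsummable hC hS' hz') S hSp hSn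
      rw [LSeries_eq hC hS' hz'] at hk
      rw [hP1, hP2]
      exact hk
  -- bounds
  have hB1 : ∀ z : ℂ, 1 < z.re → ‖P1 z‖ ≤ ∏ p ∈ S, (2 + ‖c p‖) := by
    intro z hz
    rw [hP1]
    simp only
    rw [norm_prod]
    exact Finset.prod_le_prod (fun p _ => norm_nonneg _) fun p hp => Ef_le (hSp p hp) hz
  have hB2 : ∀ z : ℂ, 1 < z.re → (1 / 3 : ℝ) ^ S.card ≤ ‖P2 z‖ := by
    intro z hz
    rw [hP2]
    simp only
    rw [norm_prod, ← Finset.prod_const]
    refine Finset.prod_le_prod (fun p _ => by norm_num) fun p hp => ?_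
    split_ifs with hg
    · obtain ⟨h3, h1⟩ := hSg p hp hg
      exact Df_ge (hSp p hp) h3 h1 hz
    · rw [norm_one]; norm_num
  have hB3 : ∀ s : ℂ, 0 < s.re → ‖small a b s‖ ≤
      ∏ p ∈ Finset.range 25, (2 + ‖(p : ℂ) - (pointCount a b p : ℂ)‖) := by
    intro s hs
    unfold small
    rw [norm_prod]
    refine Finset.prod_le_prod (fun p _ => norm_nonneg _) fun p _ => ?_
    split_ifs with hg
    · have he : ef a b p s = Df a b p (1 + s) := rfl
      rw [he]
      exact Df_le hg.1 (by simp; linarith)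
    · rw [norm_one]
      have := norm_nonneg ((p : ℂ) - (pointCount a b p : ℂ))
      linarith
  obtain ⟨K1, hK1⟩ : ∃ K1 : ℝ, K1 = ∏ p ∈ S, (2 + ‖c p‖) := ⟨_, rfl⟩
  obtain ⟨K2, hK2⟩ : ∃ K2 : ℝ, K2 = (3 : ℝ) ^ S.card := ⟨_, rfl⟩
  obtain ⟨K3, hK3⟩ : ∃ K3 : ℝ, K3 = ∏ p ∈ Finset.range 25,
    (2 + ‖(p : ℂ) - (pointCount a b p : ℂ)‖) := ⟨_, rfl⟩
  have hK10 : 0 ≤ K1 := by
    rw [hK1]
    exact Finset.prod_nonneg fun p _ => by positivity
  have hK20 : 0 ≤ K2 := by rw [hK2]; positivity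
  refine ⟨8 * C * K1 * K2 * K3, fun s hs => ?_⟩
  have hz : 1 < (1 + s).re := by simp; linarith
  have hre : (1 + s).re - 1 = s.re := by simp
  have h1 := hEq hz
  simp only at h1
  have h2 : ‖F (1 + s)‖ * ‖P2 (1 + s)‖ = ‖GZ c (1 + s)‖ * ‖P1 (1 + s)‖ := by
    rw [← norm_mul, ← norm_mul, h1]
  have h3 := GZ_bound hC hS' hz
  rw [hre] at h3
  have h4 := hB1 _ hz
  have h5 := hB2 _ hz
  have h6 := hB3 s hs
  rw [← hK1] at h4
  rw [← hK3] at h6
  have hn1 : ‖1 + s‖ ≤ 1 + ‖s‖ := by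
    refine (norm_add_le _ _).trans ?_
    rw [norm_one]
  have hG : ‖GZ c (1 + s)‖ ≤ 8 * C * (1 + ‖s‖) * (1 + 1 / s.re) ^ 2 := by
    refine h3.trans ?_
    refine mul_le_mul_of_nonneg_right ?_ (by positivity)
    exact mul_le_mul_of_nonneg_left hn1 (by positivity)
  have hFb : ‖F (1 + s)‖ ≤ 8 * C * (1 + ‖s‖) * (1 + 1 / s.re) ^ 2 * K1 * K2 := by
    have h7 : ‖F (1 + s)‖ * (1 / 3 : ℝ) ^ S.card ≤
        8 * C * (1 + ‖s‖) * (1 + 1 / s.re) ^ 2 * K1 := by
      calc ‖F (1 + s)‖ * (1 / 3 : ℝ) ^ S.card ≤ ‖F (1 + s)‖ * ‖P2 (1 + s)‖ :=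
            mul_le_mul_of_nonneg_left h5 (norm_nonneg _)
        _ = ‖GZ c (1 + s)‖ * ‖P1 (1 + s)‖ := h2
        _ ≤ _ := mul_le_mul hG h4 (norm_nonneg _) (by positivity)
    have h8 : (1 / 3 : ℝ) ^ S.card * K2 = 1 := by
      rw [hK2, ← mul_pow]
      norm_num
    calc ‖F (1 + s)‖ = ‖F (1 + s)‖ * (1 / 3 : ℝ) ^ S.card * K2 := by
          rw [mul_assoc, h8, mul_one]
      _ ≤ 8 * C * (1 + ‖s‖) * (1 + 1 / s.re) ^ 2 * K1 * K2 :=
          mul_le_mul_of_nonneg_right h7 hK20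
  unfold PhiF
  rw [norm_mul]
  calc ‖F (1 + s)‖ * ‖small a b s‖ ≤
      8 * C * (1 + ‖s‖) * (1 + 1 / s.re) ^ 2 * K1 * K2 * K3 :=
        mul_le_mul hFb h6 (norm_nonneg _) (by positivity)
    _ = _ := by ring



end Pool.Agent.H1.OB
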