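import Pool.Agent.H1.OB.Rt3

/-!
# The rotated law for the original factors, with the constant
-/

set_option autoImplicit false

namespace Pool.Agent.H1.OB

open Complex Filter Topology Set MeasureTheory Asymptotics
open Pool.Agent.W189.ML Pool.Agent.X278.OP Pool.Agent.X287.CR
open Pool.Agent.W263.BSD (GoodPrime pointCount IsLSeries rsSum)

section

variable {X : Type} {d : ℕ} {θ : ℝ} {q : X → ℕ} {α : X → Fin d → ℂ} (G : CSys θ q α)
include G

theorem sq_lim {s₀ : ℂ} (hs₀ : θ + 1 / 2 ≤ s₀.re) (γ : ℝ) {L : ℂ}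
    (hL : Tendsto (fun T : ℝ => ∑' v, cc q (X278.OP.sq α) (2 * s₀) (v, 0) *
      (Wt γ (2 * (Real.log (q v) / T)) - Wt γ (Real.log (q v) / T))) atTop (𝓝 L)) :
    Tendsto (fun T : ℝ => Su q (X278.OP.sq α) (2 * s₀) γ T - Su q (X278.OP.sq α) (2 * s₀) γ (T / 2))
      atTop (𝓝 L) := by
  obtain ⟨Cw, hCw, hlip⟩ := Wt_lip γ
  set h : X × ℕ → ℝ := fun x => 4 * d * ((q x.1 : ℝ) ^ (-(5 / 4) : ℝ) * (((x.2 : ℝ) + 2) * (3 / 4) ^ x.2))
    with hh
  have hhs : Summable h := (geo_sum G).mul_left (4 * (d : ℝ))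
  have hh0 : ∀ x, 0 ≤ h x := fun x => by
    have := (Real.rpow_pos_of_pos (G.qpos x.1) (-(5 / 4) : ℝ)).le
    rw [hh]
    positivity
  have G2 := sq_sys G
  have hs2 : 2 * θ ≤ (2 * s₀).re := by
    have : (2 * s₀).re = 2 * s₀.re := by simp
    rw [this]
    linarith
  have key : ∀ T : ℝ, 0 < T →
      ‖(Su q (X278.OP.sq α) (2 * s₀) γ T - Su q (X278.OP.sq α) (2 * s₀) γ (T / 2)) -
        ∑' v, cc q (X278.OP.sq α) (2 * s₀) (v, 0) *
          (Wt γ (2 * (Real.log (q v) / T)) - Wt γ (Real.log (q v) / T))‖ ≤ (Cw * ∑' x, h x) / T := by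
    intro T hT
    have hT2 : 0 < T / 2 := by positivity
    have hT0 := hT.le
    set u : X × ℕ → ℂ := fun x => cc q (X278.OP.sq α) (2 * s₀) x * Wt γ (lam q x / T) with hu
    set w : X × ℕ → ℂ := fun x => cc q (X278.OP.sq α) (2 * s₀) x * Wt γ (lam q x / (T / 2)) with hw
    have su : Summable u := by
      have := (G2.tm_summable hs2 γ hT).of_norm
      refine this.neg.congr fun x => ?_
      rw [tm_Wt, neg_neg]
    have sw : Summable w := by
      have := (G2.tm_summable hs2 γ hT2).of_norm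
      refine this.neg.congr fun x => ?_
      rw [tm_Wt, neg_neg]
    set f : X × ℕ → ℂ := fun x => w x - u x with hf
    have sf : Summable f := sw.sub su
    obtain ⟨f1, sf0, sf1⟩ := split sf
    have hE : Su q (X278.OP.sq α) (2 * s₀) γ T - Su q (X278.OP.sq α) (2 * s₀) γ (T / 2) =
        ∑' v, f (v, 0) + ∑' x : X × ℕ, f (x.1, x.2 + 1) := by
      rw [Su_Wt, Su_Wt, ← f1]
      have k2 : ∑' x, f x = ∑' x, w x - ∑' x, u x := sw.tsum_sub su
      rw [k2]
      ring
    have b1 : ∑' v, f (v, 0) = ∑' v, cc q (X278.OP.sq α) (2 * s₀) (v, 0) *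
        (Wt γ (2 * (Real.log (q v) / T)) - Wt γ (Real.log (q v) / T)) := by
      refine tsum_congr fun v => ?_
      have l2 : lam q (v, 0) = Real.log (q v) := by unfold lam; simp
      simp only [hf, hw, hu, l2]
      rw [show Real.log (q v) / (T / 2) = 2 * (Real.log (q v) / T) by field_simp]
      ring
    have b2 : ∀ x : X × ℕ, ‖f (x.1, x.2 + 1)‖ ≤ Cw / T * h x := by
      rintro ⟨v, k⟩
      have hl := (G.logpos v).le
      have m1 : f (v, k + 1) = cc q (X278.OP.sq α) (2 * s₀) (v, k + 1) *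
          (Wt γ (lam q (v, k + 1) / (T / 2)) - Wt γ (lam q (v, k + 1) / T)) := by
        simp only [hf, hw, hu]
        ring
      have l1 : lam q (v, k + 1) = ((k : ℝ) + 2) * Real.log (q v) := by unfold lam; push_cast; ring
      have m2 := hlip (lam q (v, k + 1) / (T / 2)) (lam q (v, k + 1) / T)
        (div_nonneg (G.lam_nonneg _) hT2.le) (div_nonneg (G.lam_nonneg _) hT0)
      have m3 : |lam q (v, k + 1) / (T / 2) - lam q (v, k + 1) / T| =
          (((k : ℝ) + 2) * Real.log (q v)) / T := by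
        rw [l1]
        have : ((k : ℝ) + 2) * Real.log (q v) / (T / 2) - ((k : ℝ) + 2) * Real.log (q v) / T =
            (((k : ℝ) + 2) * Real.log (q v)) / T := by field_simp; ring
        rw [this, abs_of_nonneg (by positivity)]
      rw [m3] at m2
      have m4 := cc2_half G hs₀ v k
      have m5 := h_le G v k
      have m6 : (0 : ℝ) ≤ d * ((q v : ℝ) ^ (-(1 / 2) : ℝ)) ^ (k + 3) := by
        have := (Real.rpow_pos_of_pos (G.qpos v) (-(1 / 2) : ℝ)).le
        positivity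
      show ‖f (v, k + 1)‖ ≤ _
      rw [m1, norm_mul]
      calc _ ≤ (d * ((q v : ℝ) ^ (-(1 / 2) : ℝ)) ^ (k + 3)) * (Cw * ((((k : ℝ) + 2) * Real.log (q v)) / T)) :=
            mul_le_mul m4 m2 (norm_nonneg _) m6
        _ = Cw / T * (d * ((q v : ℝ) ^ (-(1 / 2) : ℝ)) ^ (k + 3) * (((k : ℝ) + 2) * Real.log (q v))) := by
          ring
        _ ≤ _ := mul_le_mul_of_nonneg_left m5 (by positivity)
    rw [hE, b1, add_sub_cancel_left]
    refine (tsum_of_norm_bounded (hhs.mul_left (Cw / T)).hasSum b2).trans ?_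
    rw [tsum_mul_left]
    exact le_of_eq (by ring)
  have h0 : Tendsto (fun T : ℝ => (Cw * ∑' x, h x) / T) atTop (𝓝 0) :=
    tendsto_const_nhds.div_atTop tendsto_id
  have h1 : Tendsto (fun T : ℝ =>
      (Su q (X278.OP.sq α) (2 * s₀) γ T - Su q (X278.OP.sq α) (2 * s₀) γ (T / 2)) -
        ∑' v, cc q (X278.OP.sq α) (2 * s₀) (v, 0) *
          (Wt γ (2 * (Real.log (q v) / T)) - Wt γ (Real.log (q v) / T))) atTop (𝓝 0) := by
    refine squeeze_zero_norm' ?_ h0
    filter_upwards [eventually_gt_atTop (0 : ℝ)] with T hT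
    exact key T hT
  have h2 := h1.add hL
  rw [zero_add] at h2
  refine h2.congr fun T => ?_
  ring

theorem first_summable {s₀ : ℂ} (hs₀ : θ + 1 / 2 ≤ s₀.re) (γ : ℝ) {T : ℝ} (hT : 0 < T) :
    Summable fun v => cc q (X278.OP.sq α) (2 * s₀) (v, 0) *
      (Wt γ (2 * (Real.log (q v) / T)) - Wt γ (Real.log (q v) / T)) := by
  have G2 := sq_sys G
  have hs2 : 2 * θ ≤ (2 * s₀).re := by
    have : (2 * s₀).re = 2 * s₀.re := by simp
    rw [this]
    linarith
  have hT2 : 0 < T / 2 := by positivity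
  have su : Summable fun x => cc q (X278.OP.sq α) (2 * s₀) x * Wt γ (lam q x / T) := by
    have := (G2.tm_summable hs2 γ hT).of_norm
    refine this.neg.congr fun x => ?_
    rw [tm_Wt, neg_neg]
  have sw : Summable fun x => cc q (X278.OP.sq α) (2 * s₀) x * Wt γ (lam q x / (T / 2)) := by
    have := (G2.tm_summable hs2 γ hT2).of_norm
    refine this.neg.congr fun x => ?_
    rw [tm_Wt, neg_neg]
  obtain ⟨-, sf0, -⟩ := split (sw.sub su)
  refine sf0.congr fun v => ?_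
  have l2 : lam q (v, 0) = Real.log (q v) := by unfold lam; simp
  rw [l2]
  rw [show Real.log (q v) / (T / 2) = 2 * (Real.log (q v) / T) by field_simp]
  ring

end

variable {a b : ℤ}

open Classical in
/-- the square part, for an elliptic curve -/
theorem square_limit (hΔ : 4 * a ^ 3 + 27 * b ^ 2 ≠ 0) (hrs : Tendsto (rsSum a b) atTop (𝓝 0))
    (γ : ℝ) : Tendsto (fun T : ℝ => Su (qq a b) (X278.OP.sq (al a b)) (2 * 1) γ T -
      Su (qq a b) (X278.OP.sq (al a b)) (2 * 1) γ (T / 2)) atTop (𝓝 (Real.log 2 : ℂ)) := by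
  have hs1 : (1 / 2 : ℝ) + 1 / 2 ≤ (1 : ℂ).re := by norm_num
  have h1 := (Pool.Agent.W263.BSD.corr_tendsto hΔ hrs).const_mul 2
  have h2 : Tendsto (fun x : ℝ => ∑ p ∈ (Finset.range (⌊x⌋₊ + 1)).filter
      (fun p => GoodPrime a b p ∧ √x < p), cq a b p) atTop (𝓝 (-Real.log 2)) := by
    rw [show -Real.log 2 = 2 * -(Real.log 2 / 2) by ring]
    refine h1.congr fun x => ?_
    rw [Finset.mul_sum]
    refine Finset.sum_congr ?_ fun p hp => ?_
    · congr
    · have hp0 : (p : ℝ) ≠ 0 := by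
        exact_mod_cast (Finset.mem_filter.mp hp).2.1.1.ne_zero
      unfold cq
      field_simp
  have hsum : ∀ T : ℝ, 0 < T → Summable fun p : {p : ℕ // GoodPrime a b p} =>
      (cq a b p : ℂ) * (Wt γ (2 * (Real.log (p : ℕ) / T)) - Wt γ (Real.log (p : ℕ) / T)) := by
    intro T hT
    refine (first_summable (al_sys a b) hs1 γ hT).congr fun v => ?_
    rw [cc_al]
  have h3 := dyadic (P := GoodPrime a b) (c := cq a b) (K := 2) (fun p hp => hp.1) (by norm_num)
    (fun p hp => cq_bound hp) h2 γ hsum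
  have h4 : (-((-Real.log 2 : ℝ) : ℂ)) = (Real.log 2 : ℂ) := by
    push_cast
    ring
  rw [h4] at h3
  refine sq_lim (al_sys a b) hs1 γ (h3.congr fun T => ?_)
  refine tsum_congr fun v => ?_
  rw [cc_al]

/-- **the rotated law for the original factors** -/
theorem rot_law (hΔ : 4 * a ^ 3 + 27 * b ^ 2 ≠ 0) {F : ℂ → ℂ} (hF : IsLSeries a b F)
    (hrs : Tendsto (rsSum a b) atTop (𝓝 0)) {γ : ℝ} (hγ : Real.pi / 2 < γ) :
    ∃ (m : ℤ) (ρ : ℂ), meromorphicOrderAt F 1 = m ∧ meromorphicTrailingCoeffAt F 1 = exp ρ ∧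
      Tendsto (fun T : ℝ => Sp (qq a b) (al a b) 1 γ T -
        (m * (Real.log T - Pool.Agent.W187.UR.Lam γ) - ρ + 1 / 2 * Real.log 2)) atTop (𝓝 0) := by
  have G := al_sys a b
  have hs1 : (1 / 2 : ℝ) + 1 / 2 ≤ (1 : ℂ).re := by norm_num
  obtain ⟨m, ρ, h1, h2, h3⟩ := G.law (L := F) (fun s hs => by
    have h4 := hF.2 s (by linarith)
    have h5 : fac (qq a b) (al a b) s = fun v : {p : ℕ // GoodPrime a b p} =>
        (1 - ((v.1 : ℂ) - (pointCount a b v.1 : ℂ)) * (v.1 : ℂ) ^ (-s) + (v.1 : ℂ) ^ (1 - 2 * s))⁻¹ := by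
      funext v
      exact fac_al v s
    rw [h5]
    have h6 : HasProd ({p | GoodPrime a b p}.mulIndicator fun p : ℕ =>
        (1 - ((p : ℂ) - (pointCount a b p : ℂ)) * (p : ℂ) ^ (-s) + (p : ℂ) ^ (1 - 2 * s))⁻¹) (F s) := by
      refine h4.congr_fun ?_
      intro p
      by_cases h : GoodPrime a b p
      · rw [mulIndicator_of_mem (show p ∈ {p | GoodPrime a b p} from h), if_pos h]
      · rw [mulIndicator_of_notMem (show p ∉ {p | GoodPrime a b p} from h), if_neg h]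
    exact (hasProd_subtype_iff_mulIndicator (s := {p | GoodPrime a b p})).2 h6)
    (s₀ := 1) (by norm_num) (fun x _ _ => (hF.1.analyticAt _).meromorphicAt) hγ
  refine ⟨m, ρ, h1, h2, ?_⟩
  obtain ⟨C, hC, hc⟩ := cmp G hs1 γ
  have t1 : Tendsto (fun T : ℝ => Sp (qq a b) (al a b) 1 γ T - Su (qq a b) (al a b) 1 γ T -
      (1 / 2) * (Su (qq a b) (X278.OP.sq (al a b)) (2 * 1) γ T -
        Su (qq a b) (X278.OP.sq (al a b)) (2 * 1) γ (T / 2))) atTop (𝓝 0) := by
    have h0 : Tendsto (fun T : ℝ => C / T) atTop (𝓝 0) := tendsto_const_nhds.div_atTop tendsto_id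
    refine squeeze_zero_norm' ?_ h0
    filter_upwards [eventually_gt_atTop (0 : ℝ)] with T hT
    exact hc T hT
  have t2 := (square_limit hΔ hrs γ).const_mul (1 / 2 : ℂ)
  have t3 : Tendsto (fun T : ℝ => Su (qq a b) (al a b) 1 γ T -
      (m * (Real.log T - Pool.Agent.W187.UR.Lam γ) - ρ)) atTop (𝓝 0) :=
    IsBigO.trans_tendsto h3 (tendsto_const_nhds.div_atTop tendsto_id)
  have t4 := ((t1.add t2).add t3).sub_const (1 / 2 * (Real.log 2 : ℂ))
  have e0 : (0 : ℂ) + 1 / 2 * (Real.log 2 : ℂ) + 0 - 1 / 2 * (Real.log 2 : ℂ) = 0 := by ring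
  rw [e0] at t4
  refine t4.congr fun T => ?_
  ring

/-- the limit for order zero -/
theorem rot_zero (hΔ : 4 * a ^ 3 + 27 * b ^ 2 ≠ 0) {F : ℂ → ℂ} (hF : IsLSeries a b F)
    (hrs : Tendsto (rsSum a b) atTop (𝓝 0)) (h0 : F 1 ≠ 0) {γ : ℝ} (hγ : Real.pi / 2 < γ) :
    Tendsto (fun T : ℝ => exp (Sp (qq a b) (al a b) 1 γ T)) atTop (𝓝 (((√2 : ℝ) : ℂ) / F 1)) := by
  obtain ⟨m, ρ, h1, h2, h3⟩ := rot_law hΔ hF hrs hγ
  have ha : AnalyticAt ℂ F 1 := hF.1.analyticAt 1
  rw [ha.meromorphicTrailingCoeffAt_of_ne_zero h0] at h2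
  have hm : m = 0 := by
    have h4 : meromorphicOrderAt F 1 = 0 := by
      rw [ha.meromorphicOrderAt_eq, ha.analyticOrderAt_eq_zero.2 h0]
      rfl
    rw [h4] at h1
    exact_mod_cast h1.symm
  subst hm
  have h5 : Tendsto (fun T : ℝ => Sp (qq a b) (al a b) 1 γ T) atTop
      (𝓝 (-ρ + 1 / 2 * Real.log 2)) := by
    have h6 := h3.add_const (-ρ + 1 / 2 * (Real.log 2 : ℂ))
    rw [zero_add] at h6
    refine h6.congr fun T => ?_
    push_cast
    ring
  have h7 := (Complex.continuous_exp.tendsto _).comp h5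
  have h8 : exp (-ρ + 1 / 2 * (Real.log 2 : ℂ)) = ((√2 : ℝ) : ℂ) / F 1 := by
    rw [Complex.exp_add, Complex.exp_neg, ← h2]
    have h9 : ((√2 : ℝ) : ℂ) = exp (1 / 2 * Real.log 2) := by
      have h5 : √2 = Real.exp (1 / 2 * Real.log 2) := by
        rw [Real.sqrt_eq_rpow, Real.rpow_def_of_pos (by norm_num)]
        congr 1
        ring
      rw [h5]
      push_cast
      rfl
    rw [h9, mul_comm]
    exact (div_eq_mul_inv _ _).symm
  rw [h8] at h7
  exact h7

end Pool.Agent.H1.OB
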