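import Pool.Graph.R_seed8.X278.OP.Bd

/-!
# The derivative of the weight `e^{iγu} / Γ(1+u)`
-/

set_option autoImplicit false

namespace Pool.Agent.H1.OB

open Complex Filter Topology Set MeasureTheory
open Pool.Agent.W189.ML Pool.Agent.X278.OP

/-- the derivative of the weight -/
noncomputable def Wd (γ t : ℝ) : ℂ := deriv (WC γ) t

theorem Wd_cont (γ : ℝ) : Continuous (Wd γ) := by
  have h1 : ContDiff ℂ 1 (WC γ) := (WC_diff γ).contDiff
  have h2 : Continuous (deriv (WC γ)) := h1.continuous_deriv le_rfl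
  unfold Wd
  fun_prop

theorem Wt_hasDeriv (γ t : ℝ) : HasDerivAt (Wt γ) (Wd γ t) t := by
  have h := (WC_diff γ t).hasDerivAt.comp_ofReal
  have e : (fun x : ℝ => WC γ x) = Wt γ := by
    funext x
    exact (Wt_eq γ x).symm
  rw [e] at h
  exact h

theorem Wd_bound (γ : ℝ) : ∃ C : ℝ, 0 ≤ C ∧ ∀ t : ℝ, 0 ≤ t → ‖Wd γ t‖ ≤ C * (1 + t ^ 2)⁻¹ := by
  obtain ⟨C₁, hC₁, h1⟩ := deriv_bound γ
  set B : ℝ := Real.exp 1 + 1 with hB
  have hB0 : 0 ≤ B := by positivity
  -- the recursion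
  have hrec : ∀ u : ℝ, 0 < u → ‖Wd γ u‖ ≤ ‖Wd γ (u - 1)‖ / u + ‖WC γ ((u - 1 : ℝ) : ℂ)‖ / u ^ 2 := by
    intro u hu
    have hu0 : (u : ℂ) ≠ 0 := by exact_mod_cast hu.ne'
    unfold Wd
    rw [WC_deriv_step γ hu0, norm_mul, Complex.norm_exp_ofReal_mul_I γ, one_mul]
    have e2 : (u : ℂ) - 1 = ((u - 1 : ℝ) : ℂ) := by push_cast; rfl
    rw [e2]
    refine (norm_add_le _ _).trans (le_of_eq ?_)
    rw [norm_mul, norm_mul, norm_neg, norm_inv, norm_inv, norm_pow, Complex.norm_real,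
      Real.norm_eq_abs, abs_of_pos hu, div_eq_mul_inv, div_eq_mul_inv]
  refine ⟨5 * C₁ + 5 * (2 * C₁ + 2 * B), by positivity, fun t ht => ?_⟩
  rcases le_or_gt t 2 with h | h
  · have h2 := h1 t ht
    have h3 : (1 : ℝ) ≤ 5 * (1 + t ^ 2)⁻¹ := by
      rw [← div_eq_mul_inv, le_div_iff₀ (by positivity)]
      nlinarith
    calc ‖Wd γ t‖ ≤ C₁ * 1 := by rw [mul_one]; exact h2
      _ ≤ C₁ * (5 * (1 + t ^ 2)⁻¹) := by gcongr
      _ = 5 * C₁ * (1 + t ^ 2)⁻¹ := by ring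
      _ ≤ _ := by
        have : 0 ≤ (1 + t ^ 2)⁻¹ := by positivity
        nlinarith
  · have r1 := hrec t (by linarith)
    have r2 := hrec (t - 1) (by linarith)
    have b1 := norm_WC_le γ (u := t - 1) (by linarith)
    have b2 := norm_WC_le γ (u := t - 1 - 1) (by linarith)
    have b3 := h1 (t - 1 - 1) (by linarith)
    have ht1 : 0 < t - 1 := by linarith
    have ht0 : 0 < t := by linarith
    have s1 : ‖Wd γ (t - 1)‖ ≤ (C₁ + B) / (t - 1) := by
      refine r2.trans ?_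
      rw [add_div]
      refine add_le_add (div_le_div_of_nonneg_right b3 ht1.le) ?_
      rw [← hB] at b2
      calc ‖WC γ ((t - 1 - 1 : ℝ) : ℂ)‖ / (t - 1) ^ 2 ≤ B / (t - 1) ^ 2 := by gcongr
        _ ≤ B / (t - 1) := by
          apply div_le_div_of_nonneg_left hB0 ht1
          nlinarith
    rw [← hB] at b1
    have s2 : ‖Wd γ t‖ ≤ (2 * C₁ + 2 * B) / t ^ 2 + B / t ^ 2 := by
      refine r1.trans (add_le_add ?_ (by gcongr))
      calc ‖Wd γ (t - 1)‖ / t ≤ (C₁ + B) / (t - 1) / t := by gcongr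
        _ = (C₁ + B) / ((t - 1) * t) := by rw [div_div]
        _ ≤ (C₁ + B) / (t ^ 2 / 2) := by
          apply div_le_div_of_nonneg_left (by positivity) (by positivity)
          nlinarith
        _ = (2 * C₁ + 2 * B) / t ^ 2 := by field_simp
    have s3 : (2 * C₁ + 2 * B) / t ^ 2 + B / t ^ 2 ≤ (2 * (2 * C₁ + 2 * B)) / t ^ 2 := by
      rw [← add_div]
      apply div_le_div_of_nonneg_right _ (by positivity)
      linarith
    have s4 : (2 * (2 * C₁ + 2 * B)) / t ^ 2 ≤ (5 * C₁ + 5 * (2 * C₁ + 2 * B)) * (1 + t ^ 2)⁻¹ := by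
      rw [← div_eq_mul_inv, div_le_div_iff₀ (by positivity) (by positivity)]
      have : 0 ≤ 2 * C₁ + 2 * B := by positivity
      nlinarith [mul_nonneg this (sq_nonneg t), mul_nonneg hC₁ (sq_nonneg t)]
    exact s2.trans (s3.trans s4)

theorem Wd_int (γ : ℝ) : IntegrableOn (Wd γ) (Ioi 0) := by
  obtain ⟨C, hC, h⟩ := Wd_bound γ
  have h1 : IntegrableOn (fun t : ℝ => C * (1 + t ^ 2)⁻¹) (Ioi 0) :=
    (integrable_inv_one_add_sq.const_mul C).integrableOn
  refine Integrable.mono' h1 (Wd_cont γ).aestronglyMeasurable ?_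
  filter_upwards [ae_restrict_mem measurableSet_Ioi] with t ht
  exact h t (le_of_lt ht)

theorem Wt_zero (γ : ℝ) : Wt γ 0 = 1 := by
  unfold Wt om
  simp

theorem Wt_top (γ : ℝ) : Tendsto (Wt γ) atTop (𝓝 0) := by
  rw [tendsto_zero_iff_norm_tendsto_zero]
  have h1 : Tendsto (fun u : ℝ => (Real.exp (Real.exp 1) + 1) * Real.exp (-(1 * u))) atTop (𝓝 0) := by
    have := (Real.tendsto_exp_neg_atTop_nhds_zero).const_mul (Real.exp (Real.exp 1) + 1)
    rw [mul_zero] at this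
    simpa using this
  refine squeeze_zero' (Eventually.of_forall fun u => norm_nonneg _) ?_ h1
  filter_upwards [eventually_ge_atTop (0 : ℝ)] with u hu
  rw [norm_Wt γ hu]
  exact om_le zero_le_one hu

/-- the total mass -/
theorem Wd_total (γ : ℝ) : ∫ t in Ioi (0 : ℝ), Wd γ t = -1 := by
  have h := integral_Ioi_of_hasDerivAt_of_tendsto (f := Wt γ) (f' := Wd γ) (a := 0) (m := 0)
    ((Wt_hasDeriv γ 0).continuousAt.continuousWithinAt) (fun x _ => Wt_hasDeriv γ x) (Wd_int γ) (Wt_top γ)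
  rw [h, Wt_zero, zero_sub]

theorem Wt_step (γ : ℝ) {u : ℝ} (hu : 0 ≤ u) :
    Wt γ (2 * u) - Wt γ u = ∫ t in Ioi (0 : ℝ), (Ico u (2 * u)).indicator (Wd γ) t := by
  have h1 : ∫ t in u..(2 * u), Wd γ t = Wt γ (2 * u) - Wt γ u :=
    intervalIntegral.integral_eq_sub_of_hasDerivAt (fun x _ => Wt_hasDeriv γ x)
      ((Wd_cont γ).intervalIntegrable _ _)
  rw [← h1, intervalIntegral.integral_of_le (by linarith), ← integral_Ico_eq_integral_Ioc,
    integral_indicator measurableSet_Ico, Measure.restrict_restrict measurableSet_Ico]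
  rcases hu.eq_or_lt with h | h
  · rw [← h]
    simp
  · congr 2
    refine (inter_eq_left.2 fun t ht => ?_).symm
    exact lt_of_lt_of_le h ht.1

end Pool.Agent.H1.OB
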