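import Pool.Agent.H1.OB.Rt1
import Pool.Graph.R_seed8.W263.BSD.Lead8

/-!
# Sums over primes with the weight `W(2u) - W(u)`, `W(u) = e^{iγu} / Γ(1+u)`
-/

set_option autoImplicit false

namespace Pool.Agent.H1.OB

open Complex Filter Topology Set MeasureTheory Classical
open Pool.Agent.W189.ML Pool.Agent.X278.OP

theorem sqrt_exp (u : ℝ) : √(Real.exp u) = Real.exp (u / 2) := by
  rw [Real.sqrt_eq_rpow, ← Real.exp_mul]
  congr 1
  ring

/-- the sums of `1/p` over `√x < p ≤ x` are bounded -/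
theorem half_bound : ∃ B : ℝ, 0 ≤ B ∧ ∀ (x : ℝ) (s : Finset ℕ),
    (∀ p ∈ s, p.Prime ∧ √x < p ∧ (p : ℝ) ≤ x) → ∑ p ∈ s, (1 : ℝ) / p ≤ B := by
  have h := Pool.Agent.W263.BSD.prime_half
  obtain ⟨u₀, hu₀⟩ := eventually_atTop.1 (h.eventually (gt_mem_nhds (lt_add_one (Real.log 2))))
  set B₁ : ℝ := ∑ p ∈ Finset.range (⌊Real.exp u₀⌋₊ + 1), (1 : ℝ) / p with hB₁
  have hB₁0 : 0 ≤ B₁ := Finset.sum_nonneg fun p _ => by positivity
  have hl2 : 0 ≤ Real.log 2 := Real.log_nonneg (by norm_num)
  refine ⟨max (Real.log 2 + 1) B₁, le_max_of_le_left (by linarith), fun x s hs => ?_⟩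
  rcases s.eq_empty_or_nonempty with he | ⟨p₀, hp₀⟩
  · rw [he, Finset.sum_empty]
    exact le_max_of_le_left (by linarith)
  have hx0 : 0 < x := by
    obtain ⟨h1, -, h2⟩ := hs p₀ hp₀
    have : (0 : ℝ) < p₀ := by exact_mod_cast h1.pos
    linarith
  rcases le_or_gt u₀ (Real.log x) with h1 | h1
  · refine le_max_of_le_left (le_trans ?_ (hu₀ _ h1).le)
    refine Finset.sum_le_sum_of_subset_of_nonneg (fun p hp => ?_) fun _ _ _ => by positivity
    obtain ⟨a1, a2, a3⟩ := hs p hp
    rw [Finset.mem_filter, Finset.mem_Ioc]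
    refine ⟨⟨?_, ?_⟩, a1⟩
    · rw [← sqrt_exp, Real.exp_log hx0, Nat.floor_lt (Real.sqrt_nonneg _)]
      exact a2
    · rw [Real.exp_log hx0]
      exact Nat.le_floor a3
  · refine le_max_of_le_right ?_
    refine Finset.sum_le_sum_of_subset_of_nonneg (fun p hp => ?_) fun _ _ _ => by positivity
    obtain ⟨a1, a2, a3⟩ := hs p hp
    rw [Finset.mem_range, Nat.lt_succ_iff]
    refine Nat.le_floor (a3.trans ?_)
    rw [← Real.exp_log hx0]
    exact Real.exp_le_exp.2 h1.le

section

variable {P : ℕ → Prop} {c : ℕ → ℝ}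

/-- the finite sums with sharp cut-offs -/
noncomputable def CC (P : ℕ → Prop) (c : ℕ → ℝ) (N : ℕ) (T t : ℝ) : ℝ :=
  ∑ p ∈ (Finset.range N).filter P,
    (Ico (Real.log p / T) (2 * (Real.log p / T))).indicator (fun _ => c p) t

theorem CC_meas (N : ℕ) (T : ℝ) : Measurable (CC P c N T) := by
  unfold CC
  exact Finset.measurable_sum _ fun p _ => measurable_const.indicator measurableSet_Ico

theorem CC_eq (hP : ∀ p, P p → p.Prime) (N : ℕ) {T : ℝ} (hT : 0 < T) (t : ℝ) : CC P c N T t =
    ∑ p ∈ (Finset.range N).filter (fun p => P p ∧ √(Real.exp (t * T)) < p ∧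
      (p : ℝ) ≤ Real.exp (t * T)), c p := by
  unfold CC
  rw [Finset.sum_filter, Finset.sum_filter]
  refine Finset.sum_congr rfl fun p _ => ?_
  by_cases h : P p
  · have hp0 : (0 : ℝ) < p := by exact_mod_cast (hP p h).pos
    rw [if_pos h, indicator_apply]
    have e : (t ∈ Ico (Real.log p / T) (2 * (Real.log p / T))) ↔
        (P p ∧ √(Real.exp (t * T)) < p ∧ (p : ℝ) ≤ Real.exp (t * T)) := by
      rw [mem_Ico, div_le_iff₀ hT, ← mul_div_assoc, lt_div_iff₀ hT, sqrt_exp,
        ← Real.lt_log_iff_exp_lt hp0, ← Real.log_le_iff_le_exp hp0]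
      constructor
      · rintro ⟨h1, h2⟩
        exact ⟨h, by linarith, h1⟩
      · rintro ⟨-, h1, h2⟩
        exact ⟨h2, by linarith⟩
    by_cases h2 : t ∈ Ico (Real.log p / T) (2 * (Real.log p / T))
    · rw [if_pos h2, if_pos (e.1 h2)]
    · rw [if_neg h2, if_neg (fun h3 => h2 (e.2 h3))]
  · rw [if_neg h, if_neg (fun h3 => h h3.1)]

theorem CC_bound (hP : ∀ p, P p → p.Prime) {K B : ℝ} (hK : 0 ≤ K) (hc : ∀ p, P p → |c p| ≤ K / p)
    (hB : ∀ (x : ℝ) (s : Finset ℕ), (∀ p ∈ s, p.Prime ∧ √x < p ∧ (p : ℝ) ≤ x) →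
      ∑ p ∈ s, (1 : ℝ) / p ≤ B) (N : ℕ) {T : ℝ} (hT : 0 < T) (t : ℝ) : |CC P c N T t| ≤ K * B := by
  rw [CC_eq hP N hT]
  refine (Finset.abs_sum_le_sum_abs _ _).trans ?_
  have h1 := hB (Real.exp (t * T)) ((Finset.range N).filter (fun p => P p ∧
    √(Real.exp (t * T)) < p ∧ (p : ℝ) ≤ Real.exp (t * T))) (fun p hp => by
      obtain ⟨-, h1, h2⟩ := Finset.mem_filter.1 hp
      exact ⟨hP p h1, h2⟩)
  refine le_trans ?_ (mul_le_mul_of_nonneg_left h1 hK)
  rw [Finset.mul_sum]
  refine Finset.sum_le_sum fun p hp => ?_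
  obtain ⟨-, h1, h2⟩ := Finset.mem_filter.1 hp
  refine (hc p h1).trans (le_of_eq ?_)
  ring

/-- **dyadic means determine the sums with the weight `W(2u) - W(u)`** -/
theorem dyadic (hP : ∀ p, P p → p.Prime) {K : ℝ} (hK : 0 ≤ K) (hc : ∀ p, P p → |c p| ≤ K / p) {L : ℝ}
    (h : Tendsto (fun x : ℝ => ∑ p ∈ (Finset.range (⌊x⌋₊ + 1)).filter (fun p => P p ∧ √x < p), c p)
      atTop (𝓝 L)) (γ : ℝ)
    (hs : ∀ T : ℝ, 0 < T → Summable fun p : {p // P p} =>
      (c p : ℂ) * (Wt γ (2 * (Real.log (p : ℕ) / T)) - Wt γ (Real.log (p : ℕ) / T))) :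
    Tendsto (fun T : ℝ => ∑' p : {p // P p},
      (c p : ℂ) * (Wt γ (2 * (Real.log (p : ℕ) / T)) - Wt γ (Real.log (p : ℕ) / T))) atTop
      (𝓝 (-(L : ℂ))) := by
  obtain ⟨B, hB0, hB⟩ := half_bound
  set g : ℝ → ℕ → ℂ := fun T p =>
    (c p : ℂ) * (Wt γ (2 * (Real.log (p : ℕ) / T)) - Wt γ (Real.log (p : ℕ) / T)) with hg
  -- the choice of the length
  have hN : ∀ T : ℝ, ∃ N : ℕ, 0 < T → Real.exp (T ^ 2) < N ∧
      ‖∑ p ∈ (Finset.range N).filter P, g T p - ∑' p : {p // P p}, g T p‖ ≤ 1 / T := by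
    intro T
    by_cases hT : 0 < T
    · have h1 := (hs T hT).hasSum
      have h2 : HasSum ({p | P p}.indicator (g T)) (∑' p : {p // P p}, g T p) :=
        (hasSum_subtype_iff_indicator (s := {p | P p}) (f := g T)).1 h1
      have h3 := h2.tendsto_sum_nat
      have h4 := (Metric.tendsto_atTop.1 h3 (1 / T) (by positivity))
      obtain ⟨N₁, hN₁⟩ := h4
      obtain ⟨N₂, hN₂⟩ := exists_nat_gt (Real.exp (T ^ 2))
      refine ⟨max N₁ N₂, fun _ => ⟨hN₂.trans_le (by exact_mod_cast le_max_right _ _), ?_⟩⟩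
      have h5 := hN₁ (max N₁ N₂) (le_max_left _ _)
      rw [dist_eq_norm] at h5
      refine le_trans (le_of_eq ?_) h5.le
      congr 2
      rw [Finset.sum_filter]
      refine Finset.sum_congr rfl fun p _ => ?_
      rw [indicator_apply]
      rfl
    · exact ⟨0, fun h => absurd h hT⟩
  choose N hN using hN
  -- the finite sums as integrals
  have hfin : ∀ T : ℝ, 0 < T → ∑ p ∈ (Finset.range (N T)).filter P, g T p =
      ∫ t in Ioi (0 : ℝ), Wd γ t * (CC P c (N T) T t : ℂ) := by
    intro T hT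
    have h1 : ∀ p ∈ (Finset.range (N T)).filter P, g T p = ∫ t in Ioi (0 : ℝ),
        Wd γ t * (((Ico (Real.log p / T) (2 * (Real.log p / T))).indicator (fun _ => c p) t : ℝ) : ℂ) := by
      intro p hp
      have hp1 : (1 : ℝ) < p := by exact_mod_cast (hP p (Finset.mem_filter.1 hp).2).one_lt
      have hu : 0 ≤ Real.log p / T := div_nonneg (Real.log_nonneg hp1.le) hT.le
      simp only [hg]
      rw [Wt_step γ hu, ← integral_const_mul]
      refine integral_congr_ae (Eventually.of_forall fun t => ?_)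
      show (c p : ℂ) * (Ico (Real.log p / T) (2 * (Real.log p / T))).indicator (Wd γ) t =
        Wd γ t * (((Ico (Real.log p / T) (2 * (Real.log p / T))).indicator (fun _ => c p) t : ℝ) : ℂ)
      by_cases ht : t ∈ Ico (Real.log p / T) (2 * (Real.log p / T))
      · rw [indicator_of_mem ht, indicator_of_mem ht]
        ring
      · rw [indicator_of_notMem ht, indicator_of_notMem ht]
        simp
    rw [Finset.sum_congr rfl h1, ← integral_finsetSum]
    · refine integral_congr_ae (Eventually.of_forall fun t => ?_)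
      show ∑ p ∈ (Finset.range (N T)).filter P, _ = _
      rw [← Finset.mul_sum]
      congr 1
      unfold CC
      push_cast
      rfl
    · intro p hp
      refine Integrable.mono' ((Wd_int γ).norm.mul_const |c p|) ?_ ?_
      · refine (Wd_cont γ).aestronglyMeasurable.mul ?_
        exact (Complex.measurable_ofReal.comp
          (measurable_const.indicator measurableSet_Ico)).aestronglyMeasurable
      · refine Eventually.of_forall fun t => ?_
        rw [norm_mul, Complex.norm_real, Real.norm_eq_abs]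
        refine mul_le_mul_of_nonneg_left ?_ (norm_nonneg _)
        by_cases ht : t ∈ Ico (Real.log p / T) (2 * (Real.log p / T))
        · rw [indicator_of_mem ht]
        · rw [indicator_of_notMem ht, abs_zero]
          exact abs_nonneg _
  -- dominated convergence
  have hdct : Tendsto (fun T : ℝ => ∫ t in Ioi (0 : ℝ), Wd γ t * (CC P c (N T) T t : ℂ)) atTop
      (𝓝 (∫ t in Ioi (0 : ℝ), Wd γ t * (L : ℂ))) := by
    refine tendsto_integral_filter_of_dominated_convergence (fun t => ‖Wd γ t‖ * (K * B)) ?_ ?_ ?_ ?_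
    · filter_upwards with T
      exact (Wd_cont γ).aestronglyMeasurable.mul
        (Complex.measurable_ofReal.comp (CC_meas (N T) T)).aestronglyMeasurable
    · filter_upwards [eventually_gt_atTop (0 : ℝ)] with T hT
      refine Eventually.of_forall fun t => ?_
      rw [norm_mul, Complex.norm_real, Real.norm_eq_abs]
      exact mul_le_mul_of_nonneg_left (CC_bound hP hK hc hB (N T) hT t) (norm_nonneg _)
    · exact (Wd_int γ).norm.mul_const _
    · filter_upwards [ae_restrict_mem measurableSet_Ioi] with t ht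
      have ht0 : (0 : ℝ) < t := ht
      refine Tendsto.const_mul _ ?_
      have h1 : Tendsto (fun T : ℝ => Real.exp (t * T)) atTop atTop :=
        Real.tendsto_exp_atTop.comp (tendsto_id.const_mul_atTop ht0)
      have h2 := h.comp h1
      have h3 := (Complex.continuous_ofReal.tendsto L).comp h2
      refine h3.congr' ?_
      filter_upwards [eventually_gt_atTop (0 : ℝ), eventually_ge_atTop t] with T hT hTt
      simp only [Function.comp_apply]
      congr 1
      rw [CC_eq hP (N T) hT]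
      refine Finset.sum_congr ?_ fun _ _ => rfl
      ext p
      rw [Finset.mem_filter, Finset.mem_filter, Finset.mem_range, Finset.mem_range, Nat.lt_succ_iff,
        Nat.le_floor_iff (Real.exp_pos _).le]
      have h4 := (hN T hT).1
      constructor
      · rintro ⟨a1, a2, a3⟩
        refine ⟨?_, a2, a3, a1⟩
        have h5 : Real.exp (t * T) ≤ Real.exp (T ^ 2) := Real.exp_le_exp.2 (by nlinarith)
        have : (p : ℝ) < N T := by linarith
        exact_mod_cast this
      · rintro ⟨-, a2, a3, a4⟩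
        exact ⟨a4, a2, a3⟩
  have hval : ∫ t in Ioi (0 : ℝ), Wd γ t * (L : ℂ) = -(L : ℂ) := by
    rw [integral_mul_const, Wd_total]
    ring
  rw [hval] at hdct
  -- the error
  have herr : Tendsto (fun T : ℝ => ∑' p : {p // P p}, g T p -
      ∑ p ∈ (Finset.range (N T)).filter P, g T p) atTop (𝓝 0) := by
    have h1 : Tendsto (fun T : ℝ => 1 / T) atTop (𝓝 0) := by
      simpa using tendsto_inv_atTop_zero (𝕜 := ℝ)
    refine squeeze_zero_norm' ?_ h1
    filter_upwards [eventually_gt_atTop (0 : ℝ)] with T hT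
    rw [norm_sub_rev]
    exact (hN T hT).2
  have hfinal := herr.add hdct
  rw [zero_add] at hfinal
  refine hfinal.congr' ?_
  filter_upwards [eventually_gt_atTop (0 : ℝ)] with T hT
  rw [← hfin T hT, sub_add_cancel]

end

end Pool.Agent.H1.OB
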