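import Pool.Agent.H1.OB.Rt2
import Pool.Graph.R_seed8.X278.OP.NF

/-!
# The system of the good primes of an elliptic curve over `ℚ`
-/

set_option autoImplicit false

namespace Pool.Agent.H1.OB

open Complex Filter Topology Set MeasureTheory
open Pool.Agent.W189.ML Pool.Agent.X278.OP Pool.Agent.X287.CR
open Pool.Agent.W263.BSD (GoodPrime pointCount IsLSeries rsSum)
open Pool.Agent.TH942.ES (rt rt_norm rt_prod rt_log)

variable {a b : ℤ}

theorem count3 : ∀ a b : ZMod 3, a ≠ 0 →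
    (Finset.univ.filter fun q : ZMod 3 × ZMod 3 => q.2 ^ 2 = q.1 ^ 3 + a * q.1 + b).card ≤ 6 := by
  decide

theorem hasse3 (h : GoodPrime a b 3) : |((3 : ℕ) : ℝ) - pointCount a b 3| ≤ 2 * √((3 : ℕ) : ℝ) := by
  have h1 : (a : ZMod 3) ≠ 0 := by
    intro h0
    refine h.2 ?_
    have h2 : ((3 : ℕ) : ℤ) ∣ a := (ZMod.intCast_zmod_eq_zero_iff_dvd a 3).1 h0
    obtain ⟨c, hc⟩ := h2
    refine ⟨2 * (-4 * 9 * c ^ 3 - 9 * b ^ 2), ?_⟩
    rw [hc]
    push_cast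
    ring
  have h2 : pointCount a b 3 ≤ 6 := by
    unfold pointCount
    rw [Nat.card_eq_fintype_card, Fintype.card_subtype]
    exact count3 a b h1
  have h3 : (pointCount a b 3 : ℝ) ≤ 6 := by exact_mod_cast h2
  have h4 : (0 : ℝ) ≤ pointCount a b 3 := Nat.cast_nonneg _
  have h5 : (3 / 2 : ℝ) ≤ √((3 : ℕ) : ℝ) := by
    apply Real.le_sqrt_of_sq_le
    norm_num
  rw [abs_le]
  push_cast at h5 ⊢
  constructor <;> linarith

theorem hasse_all {p : ℕ} (h : GoodPrime a b p) : |(p : ℝ) - pointCount a b p| ≤ 2 * √(p : ℝ) := by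
  rcases lt_or_ge p 5 with h1 | h1
  · have h2 := h.1.two_le
    have h3 : p = 3 := by
      have h4 : p ≠ 2 := by
        rintro rfl
        exact h.2 ((by norm_num : ((2 : ℕ) : ℤ) ∣ 2).mul_right _)
      have h5 : p ≠ 4 := by
        rintro rfl
        exact absurd h.1 (by norm_num)
      omega
    subst h3
    exact hasse3 h
  · exact Pool.Agent.W263.BSD.hasse h h1

/-- the good primes -/
abbrev qq (a b : ℤ) : {p : ℕ // GoodPrime a b p} → ℕ := fun v => v.1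

/-- the normalised trace of Frobenius -/
noncomputable def tr (a b : ℤ) (p : ℕ) : ℝ := ((p : ℝ) - pointCount a b p) / (2 * √(p : ℝ))

theorem sqrt_pos {p : ℕ} (h : GoodPrime a b p) : 0 < √(p : ℝ) := by
  have : (0 : ℝ) < p := by exact_mod_cast h.1.pos
  exact Real.sqrt_pos.2 this

theorem tr_abs {p : ℕ} (h : GoodPrime a b p) : |tr a b p| ≤ 1 := by
  have h1 := sqrt_pos h
  unfold tr
  rw [abs_div, abs_of_pos (by linarith : 0 < 2 * √(p : ℝ)), div_le_one (by linarith)]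
  exact hasse_all h

/-- the roots `α_p`, `β_p`, of absolute value `√p` -/
noncomputable def al (a b : ℤ) (v : {p : ℕ // GoodPrime a b p}) : Fin 2 → ℂ :=
  fun i => ((√(v.1 : ℝ) : ℝ) : ℂ) * rt (tr a b v.1) i

theorem al_sys (a b : ℤ) : CSys (1 / 2) (qq a b) (al a b) where
  cnt := inferInstance
  two_le := fun v => v.2.1.two_le
  sum := fun σ hσ => by
    have h := Real.summable_nat_rpow.2 (show -σ < -1 by linarith)
    exact h.subtype _
  le := fun v i => by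
    unfold al
    rw [norm_mul, Complex.norm_real, Real.norm_eq_abs, abs_of_pos (sqrt_pos v.2)]
    have h1 := rt_norm (tr_abs v.2) i
    have h2 := sqrt_pos v.2
    rw [← Real.sqrt_eq_rpow]
    calc √(v.1 : ℝ) * ‖rt (tr a b v.1) i‖ ≤ √(v.1 : ℝ) * 1 := by gcongr
      _ = √(v.1 : ℝ) := mul_one _

section

variable (v : {p : ℕ // GoodPrime a b p})

theorem two_tr : 2 * (tr a b v.1 : ℂ) * ((√(v.1 : ℝ) : ℝ) : ℂ) = (v.1 : ℂ) - pointCount a b v.1 := by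
  have h1 := sqrt_pos v.2
  have h1c : ((√(v.1 : ℝ) : ℝ) : ℂ) ≠ 0 := by exact_mod_cast h1.ne'
  unfold tr
  push_cast
  field_simp

theorem sqrt_sq : ((√(v.1 : ℝ) : ℝ) : ℂ) ^ 2 = v.1 := by
  rw [← Complex.ofReal_pow, Real.sq_sqrt (Nat.cast_nonneg _)]
  push_cast
  rfl

/-- the Euler factor -/
theorem fac_al (s : ℂ) : fac (qq a b) (al a b) s v =
    (1 - ((v.1 : ℂ) - pointCount a b v.1) * (v.1 : ℂ) ^ (-s) + (v.1 : ℂ) ^ (1 - 2 * s))⁻¹ := by
  have hnc : (v.1 : ℂ) ≠ 0 := by exact_mod_cast v.2.1.ne_zero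
  have h2 := sqrt_sq v
  have h3 := two_tr v
  unfold fac
  rw [Fin.prod_univ_two, ← mul_inv]
  congr 1
  set r : ℂ := ((√(v.1 : ℝ) : ℝ) : ℂ) with hr
  set x : ℂ := (v.1 : ℂ) ^ (-s) with hx
  have e1 : (v.1 : ℂ) ^ (1 - 2 * s) = (r * x) ^ 2 := by
    rw [mul_pow, h2, hx, ← Complex.cpow_nat_mul]
    rw [Complex.cpow_sub _ _ hnc, Complex.cpow_one]
    rw [show ((2 : ℕ) : ℂ) * -s = -(2 * s) by push_cast; ring, Complex.cpow_neg, div_eq_mul_inv]
  have e2 := rt_prod (tr_abs v.2) (r * x)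
  have e3 : (1 - al a b v 0 * x) * (1 - al a b v 1 * x) =
      (1 - rt (tr a b v.1) 0 * (r * x)) * (1 - rt (tr a b v.1) 1 * (r * x)) := by
    unfold al
    ring
  rw [e3, e2, e1, ← h3]
  ring

theorem exp_q (w : ℂ) : exp (w * Real.log (v.1 : ℝ)) = (v.1 : ℂ) ^ w := by
  have hn0 : (0 : ℝ) < v.1 := by exact_mod_cast v.2.1.pos
  have hnc : (v.1 : ℂ) ≠ 0 := by exact_mod_cast v.2.1.ne_zero
  rw [Complex.cpow_def_of_ne_zero hnc, ← Complex.ofReal_natCast, ← Complex.ofReal_log hn0.le]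
  congr 1
  ring

/-- the logarithm of the factor at `1` -/
theorem lg_al : -lg (qq a b) (al a b) 1 v =
    ((Real.log (((pointCount a b v.1 : ℝ) + 1) / v.1) : ℝ) : ℂ) := by
  have hp2 : (2 : ℝ) ≤ v.1 := by exact_mod_cast v.2.1.two_le
  have hn0 : (0 : ℝ) < v.1 := by linarith
  have h1 := sqrt_pos v.2
  have h1c : ((√(v.1 : ℝ) : ℝ) : ℂ) ≠ 0 := by exact_mod_cast h1.ne'
  have hnc : (v.1 : ℂ) ≠ 0 := by exact_mod_cast hn0.ne'
  have h2 : √(v.1 : ℝ) ^ 2 = v.1 := Real.sq_sqrt hn0.le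
  have h2c := sqrt_sq v
  have hx : exp (-((1 : ℂ) * Real.log (qq a b v))) = (v.1 : ℂ)⁻¹ := by
    have := exp_q v (-1)
    rw [Complex.cpow_neg_one] at this
    rw [← this]
    congr 1
    ring
  have hterm : ∀ i, al a b v i * exp (-((1 : ℂ) * Real.log (qq a b v))) =
      rt (tr a b v.1) i / ((√(v.1 : ℝ) : ℝ) : ℂ) := by
    intro i
    rw [hx]
    unfold al
    rw [← h2c]
    field_simp
  have hlt : ∀ i, ‖al a b v i * exp (-((1 : ℂ) * Real.log (qq a b v)))‖ < 1 := by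
    intro i
    rw [hterm, norm_div, Complex.norm_real, Real.norm_eq_abs, abs_of_pos h1, div_lt_one h1]
    refine (rt_norm (tr_abs v.2) i).trans_lt ?_
    rw [Real.lt_sqrt (by norm_num)]
    linarith
  rw [lg_eq (al_sys a b) hlt, neg_neg]
  simp only [hterm]
  rw [rt_log (tr_abs v.2) hp2]
  congr 2
  have e1 : 2 * tr a b v.1 / √(v.1 : ℝ) = ((v.1 : ℝ) - pointCount a b v.1) / (√(v.1 : ℝ) ^ 2) := by
    unfold tr
    field_simp
  rw [e1, h2]
  field_simp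
  ring

/-- the coefficient `(a_p² - 2p) / p²` -/
noncomputable def cq (a b : ℤ) (p : ℕ) : ℝ := (((p : ℝ) - pointCount a b p) ^ 2 - 2 * p) / (p : ℝ) ^ 2

/-- the first coefficients of the square system -/
theorem cc_al : cc (qq a b) (sq (al a b)) (2 * 1) (v, 0) = (cq a b v.1 : ℂ) := by
  have hp2 : (2 : ℝ) ≤ v.1 := by exact_mod_cast v.2.1.two_le
  have hnc : (v.1 : ℂ) ≠ 0 := by exact_mod_cast v.2.1.ne_zero
  have ht := tr_abs v.2
  have h2 := sqrt_sq v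
  have h3 := two_tr v
  set t : ℝ := tr a b v.1 with htd
  set r : ℂ := ((√(v.1 : ℝ) : ℝ) : ℂ) with hr
  have p1 : rt t 0 + rt t 1 = 2 * t := by
    have e0 : rt t 0 = t + √(1 - t ^ 2) * I := rfl
    have e1 : rt t 1 = t - √(1 - t ^ 2) * I := rfl
    rw [e0, e1]; ring
  have p2 : rt t 0 * rt t 1 = 1 := by
    have h3 := rt_prod ht 1
    have h4 : (1 - rt t 0 * 1) * (1 - rt t 1 * 1) = 1 - (rt t 0 + rt t 1) + rt t 0 * rt t 1 := by ring
    rw [h4, p1] at h3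
    linear_combination h3
  have e5 : exp (-(2 * 1 * (lam (qq a b) (v, 0) : ℂ))) = ((v.1 : ℂ) ^ 2)⁻¹ := by
    have h6 := exp_q v (-2)
    have h7 : (v.1 : ℂ) ^ (-2 : ℂ) = ((v.1 : ℂ) ^ 2)⁻¹ := by
      rw [Complex.cpow_neg]
      congr 1
      exact_mod_cast Complex.cpow_natCast (v.1 : ℂ) 2
    rw [← h7, ← h6]
    congr 1
    unfold lam
    push_cast
    ring
  unfold cc
  rw [e5, Fin.sum_univ_two]
  have e6 : sq (al a b) v 0 ^ (0 + 1) + sq (al a b) v 1 ^ (0 + 1) =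
      (2 * (t : ℂ) * r) ^ 2 - 2 * r ^ 2 := by
    unfold X278.OP.sq al
    rw [← htd, ← hr]
    have e7 : ((r * rt t 0) ^ 2) ^ (0 + 1) + ((r * rt t 1) ^ 2) ^ (0 + 1) =
        ((rt t 0 + rt t 1) * r) ^ 2 - 2 * (rt t 0 * rt t 1) * r ^ 2 := by ring
    rw [e7, p1, p2]
    ring
  show (sq (al a b) v 0 ^ (0 + 1) + sq (al a b) v 1 ^ (0 + 1)) * ((v.1 : ℂ) ^ 2)⁻¹ / (((0 : ℕ) : ℂ) + 1) = _
  rw [e6, h3, h2]
  unfold cq
  push_cast
  rw [zero_add, div_one]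
  rfl

end

theorem cq_bound {p : ℕ} (h : GoodPrime a b p) : |cq a b p| ≤ 2 / p := by
  have hp0 : (0 : ℝ) < p := by exact_mod_cast h.1.pos
  have h1 := hasse_all h
  have h2 := abs_le.1 h1
  have h3 : √(p : ℝ) ^ 2 = p := Real.sq_sqrt hp0.le
  have h4 : ((p : ℝ) - pointCount a b p) ^ 2 ≤ 4 * p := by
    have : ((p : ℝ) - pointCount a b p) ^ 2 ≤ (2 * √(p : ℝ)) ^ 2 := by
      rw [← sq_abs]
      exact pow_le_pow_left₀ (abs_nonneg _) h1 2
    nlinarith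
  have h5 : 0 ≤ ((p : ℝ) - pointCount a b p) ^ 2 := sq_nonneg _
  unfold cq
  rw [abs_div, abs_of_pos (by positivity : (0 : ℝ) < (p : ℝ) ^ 2), div_le_div_iff₀ (by positivity) hp0]
  have h6 : |((p : ℝ) - pointCount a b p) ^ 2 - 2 * (p : ℝ)| ≤ 2 * (p : ℝ) := by
    rw [abs_le]
    constructor <;> linarith
  nlinarith

end Pool.Agent.H1.OB
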